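import Pool.Agent.Lib.ALLO.Defs

/-!
# Basic lemmas on `locv` (ordered values)
-/

set_option autoImplicit false

namespace Pool.Agent.ALLO83

open Pool.Agent.TAO
open Pool.Agent.ALLO (locv)

universe u w

variable {k Ω : Type u} [Field k] [Field Ω] [Algebra k Ω]
  {𝕂 : Type w} [Field 𝕂] [LinearOrder 𝕂] [IsStrictOrderedRing 𝕂] {v : OVal 𝕂 Ω}

theorem le_locv (S : Subalgebra k Ω) : S ≤ locv v S := fun a ha =>
  ⟨a, ha, 1, S.one_mem, one_ne_zero, v.map_one, by rw [div_one]⟩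

theorem locv_mono {S T : Subalgebra k Ω} (h : S ≤ T) : locv v S ≤ locv v T := by
  rintro f ⟨a, ha, b, hb, hb0, hvb, rfl⟩
  exact ⟨a, h ha, b, h hb, hb0, hvb, rfl⟩

theorem locv_le {S R : Subalgebra k Ω} (h : S ≤ R) (hR : ∀ f ∈ R, f ≠ 0 → v f = 0 → f⁻¹ ∈ R) :
    locv v S ≤ R := by
  rintro f ⟨a, ha, b, hb, hb0, hvb, rfl⟩
  rw [div_eq_mul_inv]
  exact R.mul_mem (h ha) (hR b (h hb) hb0 hvb)

theorem locv_inv {S : Subalgebra k Ω} {f : Ω} (hf : f ∈ locv v S) (h0 : f ≠ 0) (h1 : v f = 0) :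
    f⁻¹ ∈ locv v S := by
  obtain ⟨a, ha, b, hb, hb0, hvb, rfl⟩ := hf
  have ha0 : a ≠ 0 := fun h => h0 (by rw [h, zero_div])
  refine ⟨b, hb, a, ha, ha0, ?_, by rw [inv_div]⟩
  rw [v.map_div ha0 hb0, hvb, sub_zero] at h1
  exact h1

end Pool.Agent.ALLO83
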