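import Pool.Agent.Lib.TAO.Basis

/-!
# A normal finitely generated model with derivations
-/

set_option autoImplicit false

open Submodule Module

namespace Pool.Agent.ALLO83

open KaehlerDifferential

universe u

section SepV

variable {k K : Type u} [Field k] [Field K] [Algebra k K]

open IntermediateField in
open scoped IntermediateField.algebraAdjoinAdjoin in
/-- A normal finitely generated model. -/
theorem exists_normal [PerfectField k] [Algebra.EssFiniteType k K] (n : ℕ)
    (hn : Algebra.trdeg k K = n) :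
    ∃ (w : Fin n → K) (B : Subalgebra k K), AlgebraicIndependent k w ∧
      Algebra.IsSeparable (IntermediateField.adjoin k (Set.range w)) K ∧ (∀ i, w i ∈ B) ∧ B.FG ∧
      IsIntegrallyClosed B ∧ ∀ z : K, ∃ a ∈ B, ∃ b ∈ B, b ≠ 0 ∧ z = a / b := by
  classical
  obtain ⟨s, hs, hsep⟩ := exists_isTranscendenceBasis_and_isSeparable_of_perfectField k K
  have hcard : s.card = n := by
    have h1 := hs.cardinalMk_eq_trdeg
    rw [hn] at h1
    simpa using h1
  obtain ⟨e⟩ : Nonempty (Fin n ≃ s) := ⟨(Finset.equivFinOfCardEq hcard).symm⟩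
  obtain ⟨w, hw⟩ : ∃ w : Fin n → K, ∀ i, w i = (e i : K) := ⟨_, fun _ => rfl⟩
  have hwr : Set.range w = (s : Set K) := by
    ext z
    constructor
    · rintro ⟨i, rfl⟩
      rw [hw]; exact (e i).2
    · intro hz
      exact ⟨e.symm ⟨z, hz⟩, by rw [hw, Equiv.apply_symm_apply]⟩
  have hwi : AlgebraicIndependent k w := by
    have h1 := hs.1.comp e e.injective
    have h2 : (Subtype.val ∘ e : Fin n → K) = w := funext fun i => (hw i).symm
    rwa [← h2]
  have hsep' : Algebra.IsSeparable (IntermediateField.adjoin k (Set.range w)) K := by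
    rw [hwr]; exact hsep
  obtain ⟨A, hA⟩ : ∃ A, A = Algebra.adjoin k (Set.range w) := ⟨_, rfl⟩
  have hAc : IsIntegrallyClosed (Algebra.adjoin k (Set.range w)) :=
    IsIntegrallyClosed.of_equiv hwi.aevalEquiv.toRingEquiv
  have hAn : IsNoetherianRing (Algebra.adjoin k (Set.range w)) :=
    isNoetherianRing_of_ringEquiv _ hwi.aevalEquiv.toRingEquiv
  have hfin : FiniteDimensional (IntermediateField.adjoin k (Set.range w)) K := by
    have h1 : Algebra.EssFiniteType (IntermediateField.adjoin k (Set.range w)) K :=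
      Algebra.EssFiniteType.of_comp k _ K
    exact Algebra.finite_of_essFiniteType_of_isAlgebraic
  obtain ⟨C, hC⟩ : ∃ C, C = integralClosure (Algebra.adjoin k (Set.range w)) K := ⟨_, rfl⟩
  have hCic : IsIntegrallyClosed C := by
    rw [hC]
    exact integralClosure.isIntegrallyClosedOfFiniteExtension
      (IntermediateField.adjoin k (Set.range w))
  have hCfr : IsFractionRing C K := by
    rw [hC]
    exact integralClosure.isFractionRing_of_finite_extension
      (IntermediateField.adjoin k (Set.range w)) K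
  have hCfin : Module.Finite (Algebra.adjoin k (Set.range w)) C := by
    rw [hC]
    exact IsIntegralClosure.finite (Algebra.adjoin k (Set.range w))
      (IntermediateField.adjoin k (Set.range w)) K _
  have hAft : Algebra.FiniteType k (Algebra.adjoin k (Set.range w)) := by
    rw [← Subalgebra.fg_iff_finiteType]
    have h1 := Subalgebra.fg_adjoin_finset (R := k) (Finset.univ.image w)
    rwa [Finset.coe_image, Finset.coe_univ, Set.image_univ] at h1
  have hCft : Algebra.FiniteType k C :=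
    Algebra.FiniteType.trans (R := k) (S := Algebra.adjoin k (Set.range w)) (A := C)
      hAft inferInstance
  refine ⟨w, C.restrictScalars k, hwi, hsep', fun i => ?_, ?_, hCic, fun z => ?_⟩
  · have h1 : w i ∈ C := by
      have h2 : w i ∈ Algebra.adjoin k (Set.range w) := Algebra.subset_adjoin ⟨i, rfl⟩
      exact C.algebraMap_mem ⟨w i, h2⟩
    exact h1
  · rw [Subalgebra.fg_iff_finiteType]
    exact hCft
  · obtain ⟨a, b, hb, hab⟩ := IsFractionRing.div_surjective (A := C) z
    have hb0 : (b : K) ≠ 0 := by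
      have h1 : b ≠ 0 := nonZeroDivisors.ne_zero hb
      intro h2
      exact h1 (Subtype.ext h2)
    exact ⟨a, a.2, b, b.2, hb0, hab.symm⟩

/-- The derivations dual to a separating transcendence basis. -/
theorem exists_dual [Algebra.EssFiniteType k K] (n : ℕ)
    (hn : Algebra.trdeg k K = n) (w : Fin n → K)
    (hsep : Algebra.IsSeparable (IntermediateField.adjoin k (Set.range w)) K) :
    ∃ d : Fin n → Derivation k K K, (∀ i j, d i (w j) = if i = j then 1 else 0) ∧
      ∀ (δ : Derivation k K K) (z : K), δ z = ∑ i, δ (w i) * d i z := by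
  classical
  have hspan : ⊤ ≤ span K (Set.range fun i => D k K (w i)) := by
    have h1 := ALB.span_D_of_separable (k := k) (Set.range w) hsep
    rw [← Set.range_comp] at h1
    exact h1.ge
  have hle := TAO.le_finrank_kaehler (k := k) (K := K) n hn
  have hfr : finrank K (Ω[K⁄k]) = n := by
    refine le_antisymm ?_ hle
    have h1 := finrank_range_le_card (R := K) (b := fun i => D k K (w i))
    rw [Set.finrank, top_le_iff.1 hspan, finrank_top, Fintype.card_fin] at h1
    exact h1
  have hli : LinearIndependent K fun i => D k K (w i) := by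
    rw [linearIndependent_iff_card_le_finrank_span, Fintype.card_fin, Set.finrank,
      top_le_iff.1 hspan, finrank_top, hfr]
  obtain ⟨B, hB⟩ : ∃ B : Basis (Fin n) K (Ω[K⁄k]), ∀ i, B i = D k K (w i) :=
    ⟨Basis.mk hli hspan, fun i => by rw [Basis.mk_apply]⟩
  refine ⟨fun i => KaehlerDifferential.linearMapEquivDerivation k K (B.coord i), ?_, ?_⟩
  · intro i j
    have h1 : (KaehlerDifferential.linearMapEquivDerivation k K (B.coord i)) (w j) =
        B.coord i (D k K (w j)) := rfl
    rw [h1, ← hB, Basis.coord_apply, Basis.repr_self, Finsupp.single_apply]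
    by_cases h : i = j
    · rw [if_pos h, if_pos h.symm]
    · rw [if_neg h, if_neg (Ne.symm h)]
  · intro δ z
    have h1 : ∀ i, (KaehlerDifferential.linearMapEquivDerivation k K (B.coord i)) z =
        B.coord i (D k K z) := fun _ => rfl
    have h2 : δ z = δ.liftKaehlerDifferential (D k K z) := by
      rw [Derivation.liftKaehlerDifferential_comp_D]
    have h3 : ∀ i, δ (w i) = δ.liftKaehlerDifferential (B i) := fun i => by
      rw [hB, Derivation.liftKaehlerDifferential_comp_D]
    simp only [h1, h3]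
    conv_lhs => rw [h2, ← B.sum_repr (D k K z), map_sum]
    refine Finset.sum_congr rfl fun i _ => ?_
    rw [map_smul, smul_eq_mul, mul_comm, Basis.coord_apply]

theorem mem_pow_span {W : Finset K} (h1 : (1 : K) ∈ W) {z : K}
    (hz : z ∈ Algebra.adjoin k (W : Set K)) : ∃ c, z ∈ (span k (W : Set K)) ^ c := by
  have h1' : (1 : K) ∈ span k (W : Set K) := subset_span h1
  have hle : ∀ {m m' : ℕ}, m ≤ m' → (span k (W : Set K)) ^ m ≤ (span k (W : Set K)) ^ m' := by
    intro m m' h
    induction h with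
    | refl => exact le_rfl
    | @step m' _ ih =>
      refine ih.trans ?_
      rw [pow_succ]
      calc (span k (W : Set K)) ^ m' = (span k (W : Set K)) ^ m' * 1 := (mul_one _).symm
        _ ≤ _ := mul_le_mul' le_rfl (Submodule.one_le.2 h1')
  induction hz using Algebra.adjoin_induction with
  | mem x hx => exact ⟨1, by rw [pow_one]; exact subset_span hx⟩
  | algebraMap c =>
    refine ⟨0, ?_⟩
    rw [pow_zero, Algebra.algebraMap_eq_smul_one]
    exact smul_mem _ _ (Submodule.one_le.mp le_rfl)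
  | add x y _ _ hx hy =>
    obtain ⟨m, hm⟩ := hx
    obtain ⟨m', hm'⟩ := hy
    exact ⟨max m m', add_mem (hle (le_max_left _ _) hm) (hle (le_max_right _ _) hm')⟩
  | mul x y _ _ hx hy =>
    obtain ⟨m, hm⟩ := hx
    obtain ⟨m', hm'⟩ := hy
    exact ⟨m + m', by rw [pow_add]; exact mul_mem_mul hm hm'⟩

/-- A finite-dimensional space which generates a normal algebra, with derivations. -/
theorem exists_sepV [PerfectField k] [Algebra.EssFiniteType k K] (n : ℕ)
    (hn : Algebra.trdeg k K = n) (Z : Finset K) :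
    ∃ (W : Finset K) (w : Fin n → K) (d : Fin n → Derivation k K K) (h₀ : K) (c₀ : ℕ),
      (1 : K) ∈ W ∧ (∀ i, w i ∈ W) ∧ AlgebraicIndependent k w ∧
      Algebra.IsSeparable (IntermediateField.adjoin k (Set.range w)) K ∧
      (∀ z : K, ∃ a ∈ Algebra.adjoin k (W : Set K), ∃ b ∈ Algebra.adjoin k (W : Set K),
        b ≠ 0 ∧ z = a / b) ∧
      IsIntegrallyClosed (Algebra.adjoin k (W : Set K)) ∧
      (∀ i j, d i (w j) = if i = j then 1 else 0) ∧
      (∀ (δ : Derivation k K K) (z : K), δ z = ∑ i, δ (w i) * d i z) ∧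
      h₀ ≠ 0 ∧ h₀ ∈ span k (W : Set K) ^ c₀ ∧
      (∀ i, ∀ z ∈ span k (W : Set K), h₀ * d i z ∈ span k (W : Set K) ^ c₀) ∧
      ∀ z ∈ Z, ∃ a ∈ span k (W : Set K), ∃ b ∈ span k (W : Set K), b ≠ 0 ∧ z = a / b := by
  classical
  obtain ⟨w, B, hwi, hsep, hwB, hBfg, hBic, hfrac⟩ := exists_normal (k := k) (K := K) n hn
  obtain ⟨d, hd, hdspan⟩ := exists_dual (k := k) n hn w hsep
  obtain ⟨S, hS⟩ := hBfg
  choose nu hnu de hde hde0 hnd using hfrac
  obtain ⟨W, hW⟩ : ∃ W : Finset K, W = S ∪ {1} ∪ Finset.univ.image w ∪ Z.image nu ∪ Z.image de :=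
    ⟨_, rfl⟩
  have hSB : ∀ z ∈ S, z ∈ B := fun z hz => by
    rw [← hS]; exact Algebra.subset_adjoin hz
  have hWB : ∀ z ∈ W, z ∈ B := by
    intro z hz
    rw [hW] at hz
    simp only [Finset.mem_union, Finset.mem_singleton, Finset.mem_image, Finset.mem_univ,
      true_and] at hz
    rcases hz with (((hz | rfl) | ⟨i, rfl⟩) | ⟨y, -, rfl⟩) | ⟨y, -, rfl⟩
    · exact hSB z hz
    · exact B.one_mem
    · exact hwB i
    · exact hnu y
    · exact hde y
  have hWad : Algebra.adjoin k (W : Set K) = B := by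
    apply le_antisymm
    · rw [Algebra.adjoin_le_iff]
      exact fun z hz => hWB z hz
    · rw [← hS]
      refine Algebra.adjoin_mono ?_
      intro z hz
      have hz' : z ∈ S := hz
      rw [hW]
      simp only [Finset.coe_union, Set.mem_union, Finset.mem_coe]
      exact Or.inl (Or.inl (Or.inl (Or.inl hz')))
  have h1W : (1 : K) ∈ W := by
    rw [hW]
    simp only [Finset.mem_union, Finset.mem_singleton]
    tauto
  -- the denominator
  obtain ⟨h₀, hh₀⟩ : ∃ h₀ : K, h₀ = ∏ i : Fin n, ∏ z ∈ W, de (d i z) := ⟨_, rfl⟩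
  have hh₀0 : h₀ ≠ 0 := by
    rw [hh₀]
    exact Finset.prod_ne_zero_iff.2 fun i _ => Finset.prod_ne_zero_iff.2 fun z _ => hde0 _
  have hh₀B : h₀ ∈ B := by
    rw [hh₀]
    exact B.prod_mem fun i _ => B.prod_mem fun z _ => hde _
  have hh₀d : ∀ i, ∀ z ∈ W, h₀ * d i z ∈ B := by
    intro i z hz
    rw [hh₀, ← Finset.mul_prod_erase _ _ (Finset.mem_univ i), ← Finset.mul_prod_erase _ _ hz]
    have h2 : de (d i z) * d i z = nu (d i z) := by
      conv_lhs => rw [hnd (d i z)]
      rw [← hnd (d i z)]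
      have h3 := hnd (d i z)
      rw [eq_div_iff (hde0 _)] at h3
      rw [mul_comm]
      exact h3
    have h3 : de (d i z) * (∏ x ∈ W.erase z, de (d i x)) *
        (∏ x ∈ Finset.univ.erase i, ∏ y ∈ W, de (d x y)) * d i z =
        (de (d i z) * d i z) * ((∏ x ∈ W.erase z, de (d i x)) *
        (∏ x ∈ Finset.univ.erase i, ∏ y ∈ W, de (d x y))) := by ring
    rw [h3, h2]
    exact B.mul_mem (hnu _) (B.mul_mem (B.prod_mem fun x _ => hde _)
      (B.prod_mem fun x _ => B.prod_mem fun y _ => hde _))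
  have hmem : ∀ z ∈ B, ∃ c, z ∈ (span k (W : Set K)) ^ c := fun z hz =>
    mem_pow_span h1W (by rw [hWad]; exact hz)
  obtain ⟨c₁, hc₁⟩ := hmem h₀ hh₀B
  choose c₂ hc₂ using fun (i : Fin n) (z : W) => hmem _ (hh₀d i z z.2)
  have hle : ∀ {m m' : ℕ}, m ≤ m' → (span k (W : Set K)) ^ m ≤ (span k (W : Set K)) ^ m' := by
    intro m m' h
    have h1' : (1 : K) ∈ span k (W : Set K) := subset_span h1W
    induction h with
    | refl => exact le_rfl
    | @step m' _ ih =>
      refine ih.trans ?_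
      rw [pow_succ]
      calc (span k (W : Set K)) ^ m' = (span k (W : Set K)) ^ m' * 1 := (mul_one _).symm
        _ ≤ _ := mul_le_mul' le_rfl (Submodule.one_le.2 h1')
  refine ⟨W, w, d, h₀, c₁ + ∑ i, ∑ z, c₂ i z, h1W, fun i => ?_, hwi, hsep, fun z => ?_, ?_, hd,
    hdspan, hh₀0, hle (Nat.le_add_right _ _) hc₁, fun i z hz => ?_, fun z hz => ?_⟩
  · rw [hW]
    simp only [Finset.mem_union, Finset.mem_image, Finset.mem_univ, true_and]
    exact Or.inl (Or.inl (Or.inr ⟨i, rfl⟩))
  · rw [hWad]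
    exact ⟨nu z, hnu z, de z, hde z, hde0 z, hnd z⟩
  · rw [hWad]; exact hBic
  · induction hz using Submodule.span_induction with
    | mem z hz =>
      refine hle ?_ (hc₂ i ⟨z, hz⟩)
      calc c₂ i ⟨z, hz⟩ ≤ ∑ z, c₂ i z :=
            Finset.single_le_sum (f := fun z => c₂ i z) (fun _ _ => Nat.zero_le _)
              (Finset.mem_univ _)
        _ ≤ ∑ i, ∑ z, c₂ i z :=
            Finset.single_le_sum (f := fun i => ∑ z, c₂ i z) (fun _ _ => Nat.zero_le _)
              (Finset.mem_univ i)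
        _ ≤ _ := Nat.le_add_left _ _
    | zero => rw [map_zero, mul_zero]; exact Submodule.zero_mem _
    | add x y _ _ hx hy => rw [map_add, mul_add]; exact add_mem hx hy
    | smul c x _ hx => rw [Derivation.map_smul, mul_smul_comm]; exact smul_mem _ _ hx
  · refine ⟨nu z, subset_span ?_, de z, subset_span ?_, hde0 z, hnd z⟩
    · rw [hW]
      simp only [Finset.coe_union, Set.mem_union, Finset.mem_coe, Finset.mem_image]
      exact Or.inl (Or.inr ⟨z, hz, rfl⟩)
    · rw [hW]
      simp only [Finset.coe_union, Set.mem_union, Finset.mem_coe, Finset.mem_image]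
      exact Or.inr ⟨z, hz, rfl⟩

variable {Ω : Type u} [Field Ω] [Algebra k Ω]

/-- A finite-dimensional space which generates a normal algebra, with derivations: the form for
an intermediate field. -/
theorem exists_V [PerfectField k] (E : IntermediateField k Ω)
    (hfg : ∃ S : Finset Ω, E = IntermediateField.adjoin k (S : Set Ω))
    (halg : ∀ g : Ω, IsAlgebraic E g) {n : ℕ} (hn : Algebra.trdeg k Ω = n) (Z : Finset Ω)
    (hZ : ∀ z ∈ Z, z ∈ E) :
    ∃ (V : Submodule k Ω) (w : Fin n → E) (d : Fin n → Derivation k E E) (h₀ : Ω) (c₀ : ℕ),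
      FiniteDimensional k V ∧ (1 : Ω) ∈ V ∧ (∀ z ∈ V, z ∈ E) ∧ (∀ i, (w i : Ω) ∈ V) ∧
      IntermediateField.adjoin k (V : Set Ω) = E ∧ AlgebraicIndependent k w ∧
      Algebra.IsSeparable (IntermediateField.adjoin k (Set.range w)) E ∧
      IsIntegrallyClosed (Algebra.adjoin k (V : Set Ω)) ∧
      (∀ z ∈ E, ∃ a ∈ Algebra.adjoin k (V : Set Ω), ∃ b ∈ Algebra.adjoin k (V : Set Ω),
        b ≠ 0 ∧ z = a / b) ∧
      (∀ i j, d i (w j) = if i = j then 1 else 0) ∧
      (∀ (δ : Derivation k E E) (z : E), δ z = ∑ i, δ (w i) * d i z) ∧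
      h₀ ≠ 0 ∧ h₀ ∈ E ∧ h₀ ∈ V ^ c₀ ∧
      (∀ i, ∀ z : E, (z : Ω) ∈ V → h₀ * (d i z : E) ∈ V ^ c₀) ∧
      ∀ z ∈ Z, ∃ a ∈ V, ∃ b ∈ V, b ≠ 0 ∧ z = a / b := by
  classical
  have hess : Algebra.EssFiniteType k E := by
    obtain ⟨S, hS⟩ := hfg
    rw [IntermediateField.essFiniteType_iff, hS]
    exact IntermediateField.fg_adjoin_of_finite S.finite_toSet
  have hnE : Algebra.trdeg k E = n := by
    have h1 : Algebra.IsAlgebraic E Ω := ⟨halg⟩
    have h2 : Algebra.trdeg k E + Algebra.trdeg E Ω = Algebra.trdeg k Ω := trdeg_add_eq k E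
    have h3 : Algebra.trdeg E Ω = 0 := _root_.trdeg_eq_zero
    rwa [h3, add_zero, hn] at h2
  obtain ⟨W, w, d, h₀, c₀, h1W, hwW, hwi, hsep, hfrac, hic, hd, hdspan, hh₀, hh₀c, hh₀d, hZW⟩ :=
    exists_sepV (k := k) (K := E) n hnE
      (Finset.univ.image fun z : Z => (⟨z, hZ z z.2⟩ : E))
  obtain ⟨V, hV⟩ : ∃ V : Submodule k Ω, V = (span k (W : Set E)).map E.val.toLinearMap := ⟨_, rfl⟩
  have hVpow : ∀ c, V ^ c = ((span k (W : Set E)) ^ c).map E.val.toLinearMap := fun c => by
    rw [hV, Submodule.map_pow]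
  have hVE : ∀ z ∈ V, z ∈ E := by
    intro z hz
    rw [hV] at hz
    obtain ⟨y, -, rfl⟩ := hz
    exact y.2
  have hVmem : ∀ z : E, (z : Ω) ∈ V ↔ z ∈ span k (W : Set E) := by
    intro z
    rw [hV]
    constructor
    · rintro ⟨y, hy, hyz⟩
      have h1 : y = z := Subtype.ext hyz
      rwa [← h1]
    · intro hz
      exact ⟨z, hz, rfl⟩
  have had : Algebra.adjoin k (V : Set Ω) = (Algebra.adjoin k (W : Set E)).map E.val := by
    apply le_antisymm
    · rw [Algebra.adjoin_le_iff]
      intro z hz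
      have hz' : z ∈ V := hz
      have hzE := hVE z hz'
      have h1 : (⟨z, hzE⟩ : E) ∈ span k (W : Set E) := (hVmem ⟨z, hzE⟩).1 hz'
      refine ⟨⟨z, hzE⟩, ?_, rfl⟩
      exact Algebra.span_le_adjoin k _ h1
    · rw [AlgHom.map_adjoin, Algebra.adjoin_le_iff]
      rintro _ ⟨z, hz, rfl⟩
      exact Algebra.subset_adjoin ((hVmem z).2 (subset_span hz))
  have hadm : ∀ z : E, (z : Ω) ∈ Algebra.adjoin k (V : Set Ω) ↔
      z ∈ Algebra.adjoin k (W : Set E) := by
    intro z
    rw [had]
    constructor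
    · rintro ⟨y, hy, hyz⟩
      have h1 : y = z := Subtype.ext hyz
      rwa [← h1]
    · intro hz
      exact ⟨z, hz, rfl⟩
  have hfd : FiniteDimensional k V := by
    have h1 : FiniteDimensional k (span k (W : Set E)) :=
      FiniteDimensional.span_of_finite k W.finite_toSet
    rw [hV]
    infer_instance
  refine ⟨V, w, d, (h₀ : Ω), c₀, hfd, ?_, hVE, fun i => ?_, ?_, hwi, hsep, ?_, ?_, hd, hdspan,
    ?_, h₀.2, ?_, ?_, ?_⟩
  · exact (hVmem 1).2 (subset_span h1W)
  · exact (hVmem _).2 (subset_span (hwW i))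
  · apply le_antisymm
    · rw [IntermediateField.adjoin_le_iff]
      exact fun z hz => hVE z hz
    · intro z hz
      obtain ⟨a, ha, b, hb, hb0, hab⟩ := hfrac ⟨z, hz⟩
      have h1 : z = (a : Ω) / (b : Ω) := congrArg (fun y : E => (y : Ω)) hab
      have h2 : ∀ y : E, y ∈ Algebra.adjoin k (W : Set E) →
          (y : Ω) ∈ IntermediateField.adjoin k (V : Set Ω) := fun y hy =>
        IntermediateField.algebra_adjoin_le_adjoin k _ ((hadm y).2 hy)
      rw [h1]
      exact div_mem (h2 a ha) (h2 b hb)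
  · rw [had]
    exact IsIntegrallyClosed.of_equiv
      ((Algebra.adjoin k (W : Set E)).equivMapOfInjective E.val E.val.injective).toRingEquiv
  · intro z hz
    obtain ⟨a, ha, b, hb, hb0, hab⟩ := hfrac ⟨z, hz⟩
    refine ⟨a, (hadm a).2 ha, b, (hadm b).2 hb, fun h => hb0 (Subtype.ext h), ?_⟩
    exact congrArg (fun y : E => (y : Ω)) hab
  · exact fun h => hh₀ (Subtype.ext h)
  · rw [hVpow]; exact ⟨h₀, hh₀c, rfl⟩
  · intro i z hz
    rw [hVpow]
    exact ⟨h₀ * d i z, hh₀d i z ((hVmem z).1 hz), rfl⟩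
  · intro z hz
    obtain ⟨a, ha, b, hb, hb0, hab⟩ := hZW ⟨z, hZ z hz⟩
      (Finset.mem_image.2 ⟨⟨z, hz⟩, Finset.mem_univ _, rfl⟩)
    exact ⟨a, (hVmem a).2 ha, b, (hVmem b).2 hb, fun h => hb0 (Subtype.ext h),
      congrArg (fun y : E => (y : Ω)) hab⟩

end SepV

end Pool.Agent.ALLO83
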