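import Pool.Agent.Lib.TAO.Basis

/-!
# Small logarithmic support (1.3 of the all-defect text)
-/

set_option autoImplicit false

open Submodule Module

namespace Pool.Agent.ALLO83

/-- Two affine conditions, each violated by at most one value of the parameter, can be satisfied
simultaneously by one of the values `0, 1, -1`. -/
theorem exists_good {p : ℕ} [Fact p.Prime] (hp : 3 ≤ p) (A B : ZMod p → Prop)
    (hA : ∀ s t, A s → A t → s = t) (hB : ∀ s t, B s → B t → s = t) :
    ∃ t : ZMod p, ¬ A t ∧ ¬ B t := by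
  by_contra hcon
  push Not at hcon
  have h10 : (1 : ZMod p) ≠ 0 := one_ne_zero
  have h20 : (2 : ZMod p) ≠ 0 := by
    intro h
    have h1 : ((2 : ℕ) : ZMod p) = 0 := by exact_mod_cast h
    rw [ZMod.natCast_eq_zero_iff] at h1
    have := Nat.le_of_dvd (by norm_num) h1
    omega
  have h21 : (2 : ZMod p) ≠ 1 := by
    intro h
    apply h10
    have h2 : (2 : ZMod p) = 1 + 1 := by norm_num
    rw [h2] at h
    simp at h
  have hor : ∀ t, A t ∨ B t := fun t => by
    by_cases h : A t
    · exact Or.inl h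
    · exact Or.inr (hcon t h)
  rcases hor 0 with h0 | h0 <;> rcases hor 1 with h1 | h1 <;> rcases hor 2 with h2 | h2
  · exact h10 (hA _ _ h1 h0)
  · exact h10 (hA _ _ h1 h0)
  · exact h20 (hA _ _ h2 h0)
  · exact h21 (hB _ _ h2 h1)
  · exact h21 (hA _ _ h2 h1)
  · exact h20 (hB _ _ h2 h0)
  · exact h10 (hB _ _ h1 h0)
  · exact h10 (hB _ _ h1 h0)

/-- A small choice: vectors `m (j k) + t k • m (i k)` independent over `K` and the rows
`w (j k) + t k • w (i k)` a basis over `ZMod p`. -/
theorem exists_small {p : ℕ} [Fact p.Prime] (hp : 3 ≤ p) {K M ι : Type*} [Field K] [CharP K p]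
    [AddCommGroup M] [Module K M] {r : ℕ} (w : ι → Fin r → ZMod p)
    (j : Fin r → ι) (hj : (Matrix.of fun k => w (j k)).det ≠ 0) (m : ι → M)
    (hm : ∀ S : Submodule K M, finrank K S < r → FiniteDimensional K S → ∃ i, m i ∉ S) :
    ∃ (i : Fin r → ι) (t : Fin r → ZMod p),
      (Matrix.of fun k => w (j k) + t k • w (i k)).det ≠ 0 ∧
      LinearIndependent K fun k => m (j k) + ((t k).cast : K) • m (i k) := by
  classical
  have key : ∀ s : ℕ, ∀ hs : s ≤ r, ∃ (i : Fin r → ι) (t : Fin r → ZMod p),
      (∀ k : Fin r, s ≤ (k : ℕ) → t k = 0) ∧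
      (Matrix.of fun k => w (j k) + t k • w (i k)).det ≠ 0 ∧
      LinearIndependent K fun k : Fin s => m (j (Fin.castLE hs k)) +
        ((t (Fin.castLE hs k)).cast : K) • m (i (Fin.castLE hs k)) := by
    intro s
    induction s with
    | zero =>
      intro hs
      refine ⟨j, 0, fun _ _ => rfl, ?_, linearIndependent_empty_type⟩
      simpa using hj
    | succ s ih =>
      intro hs
      obtain ⟨i, t, ht0, hdet, hli⟩ := ih (by omega)
      obtain ⟨k₀, hk₀⟩ : ∃ k₀ : Fin r, (k₀ : ℕ) = s := ⟨⟨s, by omega⟩, rfl⟩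
      obtain ⟨u, hu⟩ : ∃ u : Fin s → M, u = fun k : Fin s => m (j (Fin.castLE (by omega) k)) +
        ((t (Fin.castLE (by omega : s ≤ r) k)).cast : K) • m (i (Fin.castLE (by omega) k)) :=
        ⟨_, rfl⟩
      rw [← hu] at hli
      obtain ⟨S, hS⟩ : ∃ S, S = span K (Set.range u) := ⟨_, rfl⟩
      have hSfd : FiniteDimensional K S := by
        rw [hS]; exact FiniteDimensional.span_of_finite K (Set.finite_range u)
      have hSr : finrank K S < r := by
        rw [hS, finrank_span_eq_card hli, Fintype.card_fin]; omega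
      obtain ⟨i₀, hi₀⟩ := hm S hSr hSfd
      obtain ⟨A, hA⟩ : ∃ A : Matrix (Fin r) (Fin r) (ZMod p),
        A = Matrix.of fun k => w (j k) + t k • w (i k) := ⟨_, rfl⟩
      rw [← hA] at hdet
      have hArow : A k₀ = w (j k₀) := by
        rw [hA]
        change w (j k₀) + t k₀ • w (i k₀) = _
        rw [ht0 k₀ hk₀.ge, zero_smul, add_zero]
      have hd : ∀ c : ZMod p, (A.updateRow k₀ (w (j k₀) + c • w i₀)).det =
          A.det + c * (A.updateRow k₀ (w i₀)).det := by
        intro c
        rw [Matrix.det_updateRow_add, Matrix.det_updateRow_smul, ← hArow,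
          Matrix.updateRow_eq_self]
      obtain ⟨c, hc1, hc2⟩ := exists_good (p := p) hp
        (fun c => (A.updateRow k₀ (w (j k₀) + c • w i₀)).det = 0)
        (fun c => m (j k₀) + (c.cast : K) • m i₀ ∈ S)
        (by
          intro c d hc hd'
          rw [hd] at hc hd'
          have h1 : (c - d) * (A.updateRow k₀ (w i₀)).det = 0 := by linear_combination hc - hd'
          rcases mul_eq_zero.1 h1 with h2 | h2
          · exact sub_eq_zero.1 h2
          · rw [h2, mul_zero, add_zero] at hc
            exact absurd hc hdet)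
        (by
          intro c d hc hd'
          by_contra hne
          apply hi₀
          have h1 := S.sub_mem hc hd'
          have h2 : (m (j k₀) + (c.cast : K) • m i₀) - (m (j k₀) + (d.cast : K) • m i₀) =
              ((c - d : ZMod p).cast : K) • m i₀ := by
            rw [ZMod.cast_sub' (R := K), sub_smul]
            abel
          rw [h2] at h1
          have h3 : ((c - d : ZMod p).cast : K) ≠ 0 := by
            intro h4
            apply hne
            have h5 : ((c - d : ZMod p).cast : K) = ((0 : ZMod p).cast : K) := by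
              rw [h4]; simp
            have h6 := (ZMod.castHom (dvd_refl p) K).injective h5
            exact sub_eq_zero.1 h6
          exact (S.smul_mem_iff h3).1 h1)
      refine ⟨Function.update i k₀ i₀, Function.update t k₀ c, ?_, ?_, ?_⟩
      · intro k hk
        have hne : k ≠ k₀ := by
          rintro rfl
          omega
        rw [Function.update_of_ne hne]
        exact ht0 k (by omega)
      · have h1 : (Matrix.of fun k => w (j k) + Function.update t k₀ c k •
            w (Function.update i k₀ i₀ k)) = A.updateRow k₀ (w (j k₀) + c • w i₀) := by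
          ext k l
          by_cases hk : k = k₀
          · subst hk
            rw [Matrix.updateRow_self]
            simp
          · rw [Matrix.updateRow_ne hk, hA]
            simp [Function.update_of_ne hk]
        rw [h1]
        exact hc1
      · have h1 : (fun k : Fin (s + 1) => m (j (Fin.castLE hs k)) +
            ((Function.update t k₀ c (Fin.castLE hs k)).cast : K) •
              m (Function.update i k₀ i₀ (Fin.castLE hs k))) =
            Fin.snoc (α := fun _ => M) u (m (j k₀) + (c.cast : K) • m i₀) := by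
          funext k
          refine Fin.lastCases ?_ (fun k => ?_) k
          · rw [Fin.snoc_last]
            have h2 : Fin.castLE hs (Fin.last s) = k₀ := Fin.ext (by simp [hk₀])
            rw [h2, Function.update_self, Function.update_self]
          · rw [Fin.snoc_castSucc, hu]
            have h2 : Fin.castLE hs (Fin.castSucc k) = Fin.castLE (by omega) k := Fin.ext rfl
            have h3 : Fin.castLE (by omega : s ≤ r) k ≠ k₀ := by
              intro h4
              have h5 := congrArg Fin.val h4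
              have h6 := k.2
              simp at h5
              omega
            rw [h2, Function.update_of_ne h3, Function.update_of_ne h3]
        rw [h1, linearIndependent_finSnoc]
        exact ⟨hli, by rw [← hS]; exact hc2⟩
  obtain ⟨i, t, -, h1, h2⟩ := key r le_rfl
  exact ⟨i, t, h1, h2⟩

/-- A spanning family of `F^r` contains a basis. -/
theorem exists_basis_rows {F : Type*} [Field F] {ι : Type*} {r : ℕ} (w : ι → Fin r → F)
    (hw : span F (Set.range w) = ⊤) :
    ∃ j : Fin r → ι, (Matrix.of fun k => w (j k)).det ≠ 0 := by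
  classical
  obtain ⟨b, hbs, hspan, hli⟩ := exists_linearIndependent F (Set.range w)
  rw [hw] at hspan
  obtain ⟨B, hB⟩ : ∃ B : Basis b F (Fin r → F), ∀ y, B y = y :=
    ⟨Basis.mk hli (by rw [Subtype.range_coe_subtype, Set.ofPred_mem_eq, hspan]),
      fun y => by rw [Basis.mk_apply]⟩
  have hfin : Finite b := LinearIndependent.setFinite (b := b) hli
  have hft : Fintype b := Fintype.ofFinite b
  have hcard : Fintype.card b = r := by
    have h1 := Module.finrank_eq_card_basis B
    rw [Module.finrank_fin_fun] at h1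
    exact h1.symm
  obtain ⟨e⟩ : Nonempty (Fin r ≃ b) := ⟨(Fintype.equivFinOfCardEq hcard).symm⟩
  choose t ht using fun y : b => hbs y.2
  refine ⟨fun k => t (e k), ?_⟩
  have h1 : (Matrix.of fun k => w (t (e k))) = Matrix.of fun k => ((e k : b) : Fin r → F) := by
    congr 1
    funext k
    exact ht (e k)
  rw [h1]
  have h2 : LinearIndependent F fun k => ((e k : b) : Fin r → F) := hli.comp e e.injective
  have h3 : IsUnit (Matrix.of fun k => ((e k : b) : Fin r → F)) :=
    Matrix.linearIndependent_rows_iff_isUnit.1 h2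
  rw [Matrix.isUnit_iff_isUnit_det] at h3
  exact h3.ne_zero

open KaehlerDifferential TAO

universe u w

/-- Exponents with small logarithmic support. -/
theorem exists_exponents_small {p : ℕ} [Fact p.Prime] (hp : 3 ≤ p) {k K : Type u} [Field k]
    [Field K] [Algebra k K] [CharP K p] {r : ℕ} {ι : Type} [Fintype ι] [Module.Finite K (Ω[K⁄k])]
    (g : ι → K) (hg : ∀ j, g j ≠ 0)
    (hgen : ∀ z : K, z ∈ IntermediateField.adjoin k (Set.range g))
    (hr : r ≤ finrank K (KaehlerDifferential k K)) {a : ι → Fin r → ℤ}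
    {α : Fin r → ι → ℤ} (hα : ∀ i, ∑ j, α i j • a j = Pi.single i 1) :
    ∃ α' : Fin r → ι → ℤ, (∀ i, ∑ j, α' i j • a j = Pi.single i 1) ∧
      (LinearIndependent K fun i => dlog k g (α' i)) ∧
      (LinearIndependent K fun i => KaehlerDifferential.D k K (∏ j, g j ^ α' i j)) ∧
      ∃ S : Finset ι, S.card ≤ 2 * r ∧ ∀ i, ∀ j, j ∉ S → (p : ℤ) ∣ α' i j := by
  classical
  obtain ⟨w, hw⟩ : ∃ w : ι → Fin r → ZMod p, ∀ j l, w j l = ((a j l : ℤ) : ZMod p) :=
    ⟨fun j l => ((a j l : ℤ) : ZMod p), fun _ _ => rfl⟩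
  have hα' : ∀ i l, ∑ j, α i j * a j l = Pi.single (M := fun _ => ℤ) i 1 l := by
    intro i l
    have h1 := congrFun (hα i) l
    rw [← h1, Finset.sum_apply]
    rfl
  have hwspan : span (ZMod p) (Set.range w) = ⊤ := by
    rw [eq_top_iff, ← (Pi.basisFun (ZMod p) (Fin r)).span_eq, span_le]
    rintro _ ⟨i, rfl⟩
    have h1 : (Pi.basisFun (ZMod p) (Fin r)) i = ∑ j, ((α i j : ℤ) : ZMod p) • w j := by
      funext l
      rw [Pi.basisFun_apply, Finset.sum_apply]
      have h2 := congrArg (Int.cast (R := ZMod p)) (hα' i l)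
      rw [Int.cast_sum] at h2
      have h3 : ((Pi.single (M := fun _ => ℤ) i 1 l : ℤ) : ZMod p) =
          Pi.single (M := fun _ => ZMod p) i 1 l := by
        by_cases hil : l = i
        · subst hil; simp
        · simp [Pi.single_eq_of_ne hil]
      rw [← h3, ← h2]
      refine Finset.sum_congr rfl fun j _ => ?_
      rw [Pi.smul_apply, hw, smul_eq_mul, Int.cast_mul]
    rw [h1]
    exact sum_mem fun j _ => smul_mem _ _ (subset_span ⟨j, rfl⟩)
  obtain ⟨jj, hjj⟩ := exists_basis_rows w hwspan
  obtain ⟨m, hm⟩ : ∃ m : ι → Ω[K⁄k], ∀ j, m j = (g j)⁻¹ • D k K (g j) := ⟨_, fun _ => rfl⟩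
  obtain ⟨ii, t, hdet, hli⟩ := exists_small (p := p) hp w jj hjj m (by
    intro S hS _
    by_contra hcon
    push Not at hcon
    have h1 : S = ⊤ := by
      rw [eq_top_iff, ← KaehlerDifferential.span_range_derivation k K, span_le]
      rintro _ ⟨z, rfl⟩
      refine ALB.D_mem_of_mem_adjoin _ ?_ (hgen z)
      rintro _ ⟨j, rfl⟩
      have h2 := S.smul_mem (g j) (hcon j)
      rwa [hm, smul_smul, mul_inv_cancel₀ (hg j), one_smul] at h2
    rw [h1, finrank_top] at hS
    omega)
  obtain ⟨W, hW⟩ : ∃ W : Matrix (Fin r) (Fin r) (ZMod p),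
    W = Matrix.of fun k => w (jj k) + t k • w (ii k) := ⟨_, rfl⟩
  rw [← hW] at hdet
  have hu : IsUnit W.det := isUnit_iff_ne_zero.2 hdet
  obtain ⟨e, he⟩ : ∃ e : Fin r → ι → ZMod p, ∀ q j, e q j =
    Pi.single (M := fun _ => ZMod p) (jj q) 1 j + t q * Pi.single (M := fun _ => ZMod p) (ii q) 1 j :=
    ⟨_, fun _ _ => rfl⟩
  obtain ⟨e', he'⟩ : ∃ e' : Fin r → ι → ZMod p, ∀ i j, e' i j = ∑ q, W⁻¹ i q * e q j :=
    ⟨_, fun _ _ => rfl⟩
  have hew : ∀ q l, ∑ j, e q j * w j l = W q l := by
    intro q l
    rw [hW]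
    simp only [he, add_mul, Finset.sum_add_distrib, Matrix.of_apply, Pi.add_apply, Pi.smul_apply,
      smul_eq_mul]
    congr 1
    · rw [Finset.sum_eq_single (jj q)]
      · rw [Pi.single_eq_same, one_mul]
      · intro j _ hj
        rw [Pi.single_eq_of_ne hj, zero_mul]
      · intro h; exact absurd (Finset.mem_univ _) h
    · rw [Finset.sum_eq_single (ii q)]
      · rw [Pi.single_eq_same, mul_one]
      · intro j _ hj
        rw [Pi.single_eq_of_ne hj, mul_zero, zero_mul]
      · intro h; exact absurd (Finset.mem_univ _) h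
  have he'w : ∀ i l, ∑ j, e' i j * w j l = (1 : Matrix (Fin r) (Fin r) (ZMod p)) i l := by
    intro i l
    rw [← Matrix.nonsing_inv_mul W hu, Matrix.mul_apply]
    simp only [he', Finset.sum_mul]
    rw [Finset.sum_comm]
    refine Finset.sum_congr rfl fun q _ => ?_
    rw [← hew, Finset.mul_sum]
    exact Finset.sum_congr rfl fun j _ => by ring
  -- the integral lift
  obtain ⟨ê, hê⟩ : ∃ ê : Fin r → ι → ℤ, ∀ i j, ((ê i j : ℤ) : ZMod p) = e' i j :=
    ⟨fun i j => (e' i j).cast, fun i j => by rw [ZMod.intCast_cast, ZMod.cast_id', id]⟩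
  have hdiv : ∀ i l, ∃ u : ℤ, ∑ j, ê i j * a j l = Pi.single (M := fun _ => ℤ) i 1 l + p * u := by
    intro i l
    have h1 : ((∑ j, ê i j * a j l - Pi.single (M := fun _ => ℤ) i 1 l : ℤ) : ZMod p) = 0 := by
      push_cast
      have h2 : ∑ j, ((ê i j : ℤ) : ZMod p) * ((a j l : ℤ) : ZMod p) = ∑ j, e' i j * w j l :=
        Finset.sum_congr rfl fun j _ => by rw [hê, hw]
      rw [h2, he'w, Matrix.one_apply]
      by_cases hil : i = l
      · subst hil; simp
      · rw [if_neg hil, Pi.single_eq_of_ne (Ne.symm hil)]; simp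
    rw [ZMod.intCast_zmod_eq_zero_iff_dvd] at h1
    obtain ⟨u, hu⟩ := h1
    exact ⟨u, by linarith⟩
  choose u hu' using hdiv
  obtain ⟨α', hα''⟩ : ∃ α' : Fin r → ι → ℤ, ∀ i j, α' i j = ê i j - p * ∑ l, u i l * α l j :=
    ⟨_, fun _ _ => rfl⟩
  have hcast : ∀ i j, ((α' i j : ℤ) : ZMod p) = e' i j := by
    intro i j
    rw [hα'']
    push_cast
    rw [hê, CharP.cast_eq_zero, zero_mul, sub_zero]
  have hsum : ∀ i l, ∑ j, α' i j * a j l = Pi.single (M := fun _ => ℤ) i 1 l := by
    intro i l
    have h1 : ∑ j, α' i j * a j l = ∑ j, ê i j * a j l -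
        p * ∑ l', u i l' * ∑ j, α l' j * a j l := by
      simp only [hα'', sub_mul, Finset.sum_sub_distrib]
      congr 1
      simp only [Finset.mul_sum, Finset.sum_mul]
      rw [Finset.sum_comm]
      exact Finset.sum_congr rfl fun j _ => Finset.sum_congr rfl fun l' _ => by ring
    rw [h1, hu']
    simp only [hα']
    have h2 : ∑ l', u i l' * Pi.single (M := fun _ => ℤ) l' 1 l = u i l := by
      rw [Finset.sum_eq_single l]
      · rw [Pi.single_eq_same, mul_one]
      · intro l' _ hl'
        rw [Pi.single_eq_of_ne (Ne.symm hl'), mul_zero]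
      · intro h; exact absurd (Finset.mem_univ _) h
    rw [h2]
    ring
  -- the differentials
  obtain ⟨U, hU⟩ : ∃ U : Fin r → Ω[K⁄k], U = fun q => m (jj q) + ((t q).cast : K) • m (ii q) :=
    ⟨_, rfl⟩
  rw [← hU] at hli
  have hcK : ∀ x : ℤ, ((x : ZMod p).cast : K) = (x : K) := fun x => ZMod.cast_intCast (dvd_refl p) x
  have heU : ∀ q, ∑ j, ((e q j).cast : K) • m j = U q := by
    intro q
    rw [hU]
    simp only [he, ZMod.cast_add (dvd_refl p), ZMod.cast_mul (dvd_refl p), add_smul,
      Finset.sum_add_distrib]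
    congr 1
    · rw [Finset.sum_eq_single (jj q)]
      · rw [Pi.single_eq_same, ZMod.cast_one (dvd_refl p), one_smul]
      · intro j _ hj
        rw [Pi.single_eq_of_ne hj, ZMod.cast_zero, zero_smul]
      · intro h; exact absurd (Finset.mem_univ _) h
    · rw [Finset.sum_eq_single (ii q)]
      · rw [Pi.single_eq_same, ZMod.cast_one (dvd_refl p), mul_one]
      · intro j _ hj
        rw [Pi.single_eq_of_ne hj, ZMod.cast_zero, mul_zero, zero_smul]
      · intro h; exact absurd (Finset.mem_univ _) h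
  have hdl : ∀ i, dlog k g (α' i) = ∑ q, ((W⁻¹ i q).cast : K) • U q := by
    intro i
    rw [dlog_apply]
    have h1 : ∀ j, α' i j • ((g j)⁻¹ • D k K (g j)) = ((e' i j).cast : K) • m j := by
      intro j
      rw [← hm, ← Int.cast_smul_eq_zsmul K, ← hcK, hcast]
    rw [Finset.sum_congr rfl fun j _ => h1 j]
    simp only [← heU, Finset.smul_sum, smul_smul]
    rw [Finset.sum_comm]
    refine Finset.sum_congr rfl fun j _ => ?_
    rw [he', ← Finset.sum_smul]
    congr 1
    rw [← ZMod.castHom_apply (R := K) (h := dvd_refl p), map_sum]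
    refine Finset.sum_congr rfl fun q _ => ?_
    rw [map_mul, ZMod.castHom_apply, ZMod.castHom_apply]
  have hind : LinearIndependent K fun i => dlog k g (α' i) := by
    rw [linearIndependent_iff_card_le_finrank_span, Fintype.card_fin]
    have h1 : Set.finrank K (Set.range U) = r := by
      rw [Set.finrank, finrank_span_eq_card hli, Fintype.card_fin]
    have h2 : span K (Set.range U) ≤ span K (Set.range fun i => dlog k g (α' i)) := by
      rw [span_le]
      rintro _ ⟨q, rfl⟩
      have h3 : U q = ∑ i, ((W q i).cast : K) • dlog k g (α' i) := by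
        simp only [hdl, Finset.smul_sum, smul_smul]
        rw [Finset.sum_comm]
        simp only [← Finset.sum_smul]
        rw [Finset.sum_eq_single q]
        · have h4 : ∑ i, ((W q i).cast : K) * ((W⁻¹ i q).cast : K) = 1 := by
            have h5 := congrFun (congrFun (Matrix.mul_nonsing_inv W hu) q) q
            rw [Matrix.mul_apply, Matrix.one_apply_eq] at h5
            have h6 := congrArg (ZMod.castHom (dvd_refl p) K) h5
            rw [map_sum, map_one] at h6
            simpa only [map_mul, ZMod.castHom_apply] using h6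
          rw [h4, one_smul]
        · intro q' _ hq'
          have h4 : ∑ i, ((W q i).cast : K) * ((W⁻¹ i q').cast : K) = 0 := by
            have h5 := congrFun (congrFun (Matrix.mul_nonsing_inv W hu) q) q'
            rw [Matrix.mul_apply, Matrix.one_apply_ne (Ne.symm hq')] at h5
            have h6 := congrArg (ZMod.castHom (dvd_refl p) K) h5
            rw [map_sum, map_zero] at h6
            simpa only [map_mul, ZMod.castHom_apply] using h6
          rw [h4, zero_smul]
        · intro h; exact absurd (Finset.mem_univ _) h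
      rw [h3]
      exact sum_mem fun i _ => smul_mem _ _ (subset_span ⟨i, rfl⟩)
    have hfd : FiniteDimensional K (span K (Set.range fun i => dlog k g (α' i))) :=
      FiniteDimensional.span_of_finite K (Set.finite_range _)
    calc r = finrank K (span K (Set.range U)) := h1.symm
      _ ≤ _ := Submodule.finrank_mono h2
  refine ⟨α', fun i => ?_, hind, ?_, Finset.univ.image jj ∪ Finset.univ.image ii, ?_, ?_⟩
  · funext l
    rw [Finset.sum_apply, ← hsum i l]
    rfl
  · have h2 : ∀ i, ∏ j, g j ^ α' i j ≠ 0 := fun i =>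
      Finset.prod_ne_zero_iff.2 fun j _ => zpow_ne_zero _ (hg j)
    have h3 := hind.units_smul fun i => Units.mk0 _ (h2 i)
    have h4 : ((fun i => Units.mk0 _ (h2 i)) • fun i => dlog k g (α' i)) =
        fun i => KaehlerDifferential.D k K (∏ j, g j ^ α' i j) := by
      funext i
      rw [D_prod_zpow hg]
      rfl
    rw [h4] at h3
    exact h3
  · refine (Finset.card_union_le _ _).trans ?_
    have h1 := Finset.card_image_le (s := (Finset.univ : Finset (Fin r))) (f := jj)
    have h2 := Finset.card_image_le (s := (Finset.univ : Finset (Fin r))) (f := ii)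
    rw [Finset.card_univ, Fintype.card_fin] at h1 h2
    omega
  · intro i j hj
    rw [← ZMod.intCast_zmod_eq_zero_iff_dvd, hcast, he']
    refine Finset.sum_eq_zero fun q _ => ?_
    have h1 : j ≠ jj q := by
      rintro rfl
      exact hj (Finset.mem_union_left _ (Finset.mem_image_of_mem _ (Finset.mem_univ _)))
    have h2 : j ≠ ii q := by
      rintro rfl
      exact hj (Finset.mem_union_right _ (Finset.mem_image_of_mem _ (Finset.mem_univ _)))
    rw [he, Pi.single_eq_of_ne h1, Pi.single_eq_of_ne h2, mul_zero, add_zero, mul_zero]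

section Main


variable {k Ω : Type u} [Field k] [Field Ω] [Algebra k Ω] {𝕂 : Type w} [Field 𝕂] [LinearOrder 𝕂] [IsStrictOrderedRing 𝕂] {v : OVal 𝕂 Ω} {n r : ℕ}

/-- Toric data with independent differentials and small logarithmic support. -/
theorem exists_TD_small {p : ℕ} [Fact p.Prime] [CharP k p] (hp : 3 ≤ p) (h : CtxR k v n r)
    [IsAlgClosed k] (E : IntermediateField k Ω)
    (hfg : ∃ S : Finset Ω, E = IntermediateField.adjoin k (S : Set Ω))
    (halg : ∀ g : Ω, IsAlgebraic E g) (P : Submodule k Ω) [FiniteDimensional k P]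
    (h1 : (1 : Ω) ∈ P) (hP : IntermediateField.adjoin k (P : Set Ω) = E)
    (hr : ∃ c d : Fin r → Ω, (∀ i, c i ∈ P ∧ c i ≠ 0 ∧ d i ∈ P ∧ d i ≠ 0) ∧
      LinearIndependent ℚ fun i => v (c i) - v (d i)) :
    ∃ (T : TD k v r (Fin (finrank k P))) (f₀ : Ω), f₀ ∈ P ∧ f₀ ≠ 0 ∧
      span k (Set.range fun j => T.b j * mx T.x (T.a j)) = span k {f₀⁻¹} * P ∧
      IntermediateField.adjoin k (Set.range T.x ∪ Set.range T.b) = E ∧
      (∃ hx : ∀ i, T.x i ∈ E,
        LinearIndependent E fun i => KaehlerDifferential.D k E ⟨T.x i, hx i⟩) ∧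
      ∃ (α : Fin r → Fin (finrank k P) → ℤ) (S : Finset (Fin (finrank k P))), S.card ≤ 2 * r ∧
        (∀ i, ∀ j, j ∉ S → (p : ℤ) ∣ α i j) ∧ (∀ i, ∑ j, α i j • T.a j = Pi.single i 1) ∧
        (∀ i, ∏ j, T.b j ^ α i j = 1) ∧
        ∀ i, T.x i = ∏ j, (T.b j * mx T.x (T.a j)) ^ α i j := by
  classical
  have hess : Algebra.EssFiniteType k E := by
    obtain ⟨S, hS⟩ := hfg
    rw [IntermediateField.essFiniteType_iff, hS]
    exact IntermediateField.fg_adjoin_of_finite S.finite_toSet
  obtain ⟨F, hF⟩ := VBasis.exists h.triv P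
  have hcard := hF.card_eq h.triv h.res
  have hPF : P = span k (F : Set Ω) :=
    le_antisymm (hF.le_span h.res) (span_le.2 hF.mem)
  obtain ⟨e⟩ : Nonempty (Fin (finrank k P) ≃ F) := ⟨(F.equivFinOfCardEq hcard).symm⟩
  obtain ⟨f, hf⟩ : ∃ f : Fin (finrank k P) → Ω, f = fun j => (e j : Ω) := ⟨_, rfl⟩
  have hf' : ∀ j, f j = (e j : Ω) := fun j => by rw [hf]
  have hfr : Set.range f = F := by
    ext y
    constructor
    · rintro ⟨j, rfl⟩
      rw [hf']; exact (e j).2
    · intro hy
      exact ⟨e.symm ⟨y, hy⟩, by rw [hf', Equiv.apply_symm_apply]⟩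
  have hfF : ∀ j, f j ∈ F := fun j => by
    have h2 : f j ∈ Set.range f := ⟨j, rfl⟩
    rw [hfr] at h2
    exact h2
  have hfP : ∀ j, f j ∈ P := fun j => hF.mem _ (hfF j)
  have hf0 : ∀ j, f j ≠ 0 := fun j => hF.ne _ (hfF j)
  have hvinj : Function.Injective fun j => v (f j) := by
    intro i j hij
    have h2 : f i = f j := hF.inj (hfF i) (hfF j) hij
    rw [hf', hf'] at h2
    exact e.injective (Subtype.ext h2)
  have hall : ∀ g ∈ P, g ≠ 0 → ∃ j, v g = v (f j) := by
    intro g hg hg0
    obtain ⟨y, hy, hvy⟩ := hF.all g hg hg0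
    have h2 : y ∈ Set.range f := by rw [hfr]; exact hy
    obtain ⟨j, rfl⟩ := h2
    exact ⟨j, hvy⟩
  obtain ⟨o, -⟩ := hall 1 h1 one_ne_zero
  obtain ⟨g, hg⟩ : ∃ g : Fin (finrank k P) → Ω, g = fun j => (f o)⁻¹ * f j := ⟨_, rfl⟩
  have hg' : ∀ j, g j = (f o)⁻¹ * f j := fun j => by rw [hg]
  have hg0 : ∀ j, g j ≠ 0 := fun j => by
    rw [hg']; exact mul_ne_zero (inv_ne_zero (hf0 o)) (hf0 j)
  have hvg : ∀ j, v (g j) = v (f j) - v (f o) := fun j => by
    rw [hg', v.map_mul (inv_ne_zero (hf0 o)) (hf0 j), v.map_inv (hf0 o)]; ring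
  have hgo : g o = 1 := by rw [hg', inv_mul_cancel₀ (hf0 o)]
  have hginj : Function.Injective fun j => v (g j) := by
    intro i j hij
    apply hvinj
    have h2 : v (g i) = v (g j) := hij
    rw [hvg, hvg] at h2
    change v (f i) = v (f j)
    linarith
  -- the rational rank
  have hrank : finrank ℚ (span ℚ (Set.range fun j => v (g j))) = r := by
    apply le_antisymm
    · obtain ⟨X, hX0, hX, hXs⟩ := h.rank
      have h2 : span ℚ (Set.range fun j => v (g j)) ≤ span ℚ (Set.range fun i => v (X i)) := by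
        rw [span_le]
        rintro _ ⟨j, rfl⟩
        exact hXs _ (hg0 j)
      have hfd : FiniteDimensional ℚ (span ℚ (Set.range fun i => v (X i))) :=
        FiniteDimensional.span_of_finite ℚ (Set.finite_range _)
      have h3 := Submodule.finrank_mono h2
      rwa [finrank_span_eq_card hX, Fintype.card_fin] at h3
    · obtain ⟨c, d, hcd, hind⟩ := hr
      have h2 : span ℚ (Set.range fun i => v (c i) - v (d i)) ≤
          span ℚ (Set.range fun j => v (g j)) := by
        rw [span_le]
        rintro _ ⟨i, rfl⟩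
        obtain ⟨hc, hc0, hd, hd0⟩ := hcd i
        obtain ⟨j, hj⟩ := hall _ hc hc0
        obtain ⟨j', hj'⟩ := hall _ hd hd0
        have h3 : v (c i) - v (d i) = v (g j) - v (g j') := by
          rw [hvg, hvg, hj, hj']; ring
        change v (c i) - v (d i) ∈ span ℚ (Set.range fun j => v (g j))
        rw [h3]
        exact Submodule.sub_mem _ (subset_span ⟨j, rfl⟩) (subset_span ⟨j', rfl⟩)
      have hfd : FiniteDimensional ℚ (span ℚ (Set.range fun j => v (g j))) :=
        FiniteDimensional.span_of_finite ℚ (Set.finite_range _)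
      have h3 := Submodule.finrank_mono h2
      rwa [finrank_span_eq_card hind, Fintype.card_fin] at h3
  obtain ⟨lam, a, α, hl, ha, hα⟩ := exists_lattice (fun j => v (g j)) hrank
  -- the field
  have hPE : ∀ y ∈ P, y ∈ E := fun y hy => by
    rw [← hP]; exact IntermediateField.subset_adjoin _ _ hy
  have hgE : ∀ j, g j ∈ E := fun j => by
    rw [hg']; exact E.mul_mem (E.inv_mem (hPE _ (hfP o))) (hPE _ (hfP j))
  have hspanf : span k (Set.range f) = P := by rw [hfr]; exact hPF.symm
  have hspang : span k (Set.range g) = span k {(f o)⁻¹} * P := by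
    have h2 : span k {(f o)⁻¹} * P = span k {(f o)⁻¹} * span k (Set.range f) := by rw [hspanf]
    rw [h2, span_mul_span, Set.singleton_mul, ← Set.range_comp]
    congr 1
    ext y
    simp only [Set.mem_range, Function.comp, hg']
  have hPg : ∀ y ∈ P, (f o)⁻¹ * y ∈ span k (Set.range g) := fun y hy => by
    rw [hspang]
    exact mul_mem_mul (mem_span_singleton_self _) hy
  have hspan_le : ∀ L : IntermediateField k Ω, (∀ j, g j ∈ L) → E ≤ L := by
    intro L hL
    have h2 : ∀ y ∈ span k (Set.range g), y ∈ L := by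
      intro y hy
      have h3 : span k (Set.range g) ≤ L.toSubalgebra.toSubmodule := by
        rw [span_le]
        rintro _ ⟨j, rfl⟩
        exact hL j
      exact h3 hy
    have h3 : (f o)⁻¹ ∈ L := by
      have h4 := h2 _ (hPg 1 h1)
      rwa [mul_one] at h4
    rw [← hP, IntermediateField.adjoin_le_iff]
    intro y hy
    have h4 := L.mul_mem (L.inv_mem h3) (h2 _ (hPg y hy))
    rwa [inv_inv, mul_inv_cancel_left₀ (hf0 o)] at h4
  obtain ⟨gE, hgE'⟩ : ∃ gE : Fin (finrank k P) → E, ∀ j, (gE j : Ω) = g j :=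
    ⟨fun j => ⟨g j, hgE j⟩, fun j => rfl⟩
  have hgE0 : ∀ j, gE j ≠ 0 := fun j h2 => hg0 j (by rw [← hgE', h2]; rfl)
  have hgen : ∀ z : E, z ∈ IntermediateField.adjoin k (Set.range gE) := by
    intro z
    have h2 : E ≤ (IntermediateField.adjoin k (Set.range gE)).map E.val := by
      apply hspan_le
      intro j
      exact ⟨gE j, IntermediateField.subset_adjoin _ _ ⟨j, rfl⟩, hgE' j⟩
    obtain ⟨w, hw, hwz⟩ := h2 z.2
    have h3 : w = z := Subtype.ext hwz
    rw [← h3]
    exact hw
  have hcp : CharP E p := charP_of_injective_algebraMap (algebraMap k E).injective p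
  have hlat0 : ∀ i, ∑ j, α i j • a j = Pi.single i 1 := by
    intro i
    refine int_eq_of_ind hl ?_
    have h1 : ∀ l, (((∑ j, α i j • a j) l : ℤ) : 𝕂) = ∑ j, (α i j : 𝕂) * (a j l : 𝕂) := by
      intro l
      rw [Finset.sum_apply]
      push_cast
      exact Finset.sum_congr rfl fun j _ => by
        rw [Pi.smul_apply, smul_eq_mul]; push_cast; ring
    simp only [h1]
    calc ∑ l, (∑ j, (α i j : 𝕂) * (a j l : 𝕂)) * lam l
        = ∑ j, (α i j : 𝕂) * v (g j) := by
          simp only [ha, Finset.sum_mul, Finset.mul_sum]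
          rw [Finset.sum_comm]
          refine Finset.sum_congr rfl fun j _ => Finset.sum_congr rfl fun l _ => by ring
      _ = lam i := hα i
      _ = ∑ l, (((Pi.single i 1 : Fin r → ℤ) l : ℤ) : 𝕂) * lam l := by
          rw [Finset.sum_eq_single i]
          · simp
          · intro l _ hl'
            rw [Pi.single_eq_of_ne hl']; simp
          · intro h; exact absurd (Finset.mem_univ i) h
  obtain ⟨α', hlat, -, hind, S, hScard, hSdvd⟩ := exists_exponents_small (p := p) hp (k := k)
    (r := r) gE hgE0 hgen (le_finrank h E halg) hlat0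
  have hα' : ∀ i, ∑ j, (α' i j : 𝕂) * v (g j) = lam i := by
    intro i
    have h1 : ∀ l, ∑ j, (α' i j : 𝕂) * (a j l : 𝕂) = (((Pi.single i 1 : Fin r → ℤ) l : ℤ) : 𝕂) := by
      intro l
      rw [← hlat i, Finset.sum_apply]
      push_cast
      exact Finset.sum_congr rfl fun j _ => by
        rw [Pi.smul_apply, smul_eq_mul]; push_cast; ring
    calc ∑ j, (α' i j : 𝕂) * v (g j) = ∑ l, (∑ j, (α' i j : 𝕂) * (a j l : 𝕂)) * lam l := by
          simp only [ha, Finset.sum_mul, Finset.mul_sum]
          rw [Finset.sum_comm]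
          refine Finset.sum_congr rfl fun j _ => Finset.sum_congr rfl fun l _ => by ring
      _ = ∑ l, (((Pi.single i 1 : Fin r → ℤ) l : ℤ) : 𝕂) * lam l := by simp only [h1]
      _ = lam i := by
          rw [Finset.sum_eq_single i]
          · simp
          · intro l _ hl'
            rw [Pi.single_eq_of_ne hl']; simp
          · intro h; exact absurd (Finset.mem_univ i) h
  obtain ⟨T, c, hTx, hc0, hTg⟩ := exists_TD_of_lattice h.triv h.res hg0 hginj o hgo hl ha hα'
  -- the exponents of `T` are the `a j`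
  have hvTx : ∀ i, v (T.x i) = lam i := fun i => by rw [hTx, v_prod_zpow hg0, hα']
  have hTa : ∀ j, T.a j = a j := by
    intro j
    refine int_eq_of_ind hl ?_
    rw [← ha j, hTg, Algebra.smul_def, v.map_mul ((map_ne_zero _).2 (hc0 j))
      (mul_ne_zero (T.b_ne j) (mx_ne T.x_ne _)), h.triv _ (hc0 j), zero_add,
      v.map_mul (T.b_ne j) (mx_ne T.x_ne _), v_mx T.x_ne]
    have h2 : v (T.b j) = 0 := by
      by_cases h3 : T.b j - 1 = 0
      · rw [sub_eq_zero.1 h3]; exact v.map_one
      · have h4 := v.add_of_lt one_ne_zero h3 (by rw [v.map_one]; exact T.b_res j h3)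
        rw [add_sub_cancel] at h4
        rw [h4.2, v.map_one]
    rw [h2, zero_add]
    simp only [hvTx]
  have hlatT : ∀ i, ∑ j, α' i j • T.a j = Pi.single i 1 := fun i => by
    simp only [hTa]; exact hlat i
  have hmxT : ∀ i, ∏ j, mx T.x (T.a j) ^ α' i j = T.x i := fun i => by
    rw [← mx_sum_smul T.x_ne, hlatT, mx_single, zpow_one]
  have hbprod : ∀ i, ∏ j, T.b j ^ α' i j = 1 := by
    intro i
    have h2 : T.x i = algebraMap k Ω (∏ j, c j ^ α' i j) * ((∏ j, T.b j ^ α' i j) * T.x i) := by
      have h3 : ∀ j, g j ^ α' i j = algebraMap k Ω (c j ^ α' i j) *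
          (T.b j ^ α' i j * mx T.x (T.a j) ^ α' i j) := fun j => by
        rw [hTg, Algebra.smul_def, mul_zpow, mul_zpow, map_zpow₀]
      conv_lhs => rw [hTx, Finset.prod_congr rfl fun j _ => h3 j, Finset.prod_mul_distrib,
        Finset.prod_mul_distrib, hmxT, ← map_prod]
    have h4 : algebraMap k Ω (∏ j, c j ^ α' i j) * (∏ j, T.b j ^ α' i j) = 1 := by
      apply mul_right_cancel₀ (T.x_ne i)
      rw [one_mul, mul_assoc, ← h2]
    have h5 : ∏ j, T.b j ^ α' i j = algebraMap k Ω (∏ j, c j ^ α' i j)⁻¹ := by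
      rw [map_inv₀]
      exact eq_inv_of_mul_eq_one_right h4
    have h6 := vpos_prod (v := v) Finset.univ T.b T.b_ne T.b_res (α' i)
    rw [h5] at h6 ⊢
    rw [const_eq_one h.triv h6, map_one]
  have hxE : ∀ i, T.x i ∈ E := fun i => by
    rw [hTx]
    exact prod_mem fun j _ => zpow_mem (hgE j) _
  have hcΩ : ∀ j, algebraMap k Ω (c j) ≠ 0 := fun j => (map_ne_zero _).2 (hc0 j)
  have hTg' : ∀ j, T.b j * mx T.x (T.a j) = (c j)⁻¹ • g j := fun j => by
    rw [hTg, smul_smul, inv_mul_cancel₀ (hc0 j), one_smul]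
  have hmxE : ∀ j, mx T.x (T.a j) ∈ E := fun j =>
    prod_mem fun i _ => zpow_mem (hxE i) _
  have hbE : ∀ j, T.b j ∈ E := fun j => by
    have h2 : T.b j = ((c j)⁻¹ • g j) * (mx T.x (T.a j))⁻¹ := by
      rw [← hTg', mul_inv_cancel_right₀ (mx_ne T.x_ne _)]
    rw [h2]
    exact E.mul_mem (E.smul_mem (hgE j)) (E.inv_mem (hmxE j))
  refine ⟨T, f o, hfP o, hf0 o, ?_, ?_, ⟨hxE, ?_⟩, α', S, hScard, hSdvd, hlatT, hbprod,
    fun i => ?_⟩
  · rw [← hspang]
    apply le_antisymm
    · rw [span_le]
      rintro _ ⟨j, rfl⟩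
      change T.b j * mx T.x (T.a j) ∈ span k (Set.range g)
      rw [hTg']
      exact Submodule.smul_mem _ _ (subset_span ⟨j, rfl⟩)
    · rw [span_le]
      rintro _ ⟨j, rfl⟩
      change g j ∈ span k (Set.range fun j => T.b j * mx T.x (T.a j))
      rw [hTg]
      exact Submodule.smul_mem _ _ (subset_span ⟨j, rfl⟩)
  · apply le_antisymm
    · rw [IntermediateField.adjoin_le_iff]
      rintro _ (⟨i, rfl⟩ | ⟨j, rfl⟩)
      · exact hxE i
      · exact hbE j
    · apply hspan_le
      intro j
      obtain ⟨L, hL⟩ : ∃ L, L = IntermediateField.adjoin k (Set.range T.x ∪ Set.range T.b) :=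
        ⟨_, rfl⟩
      have hxL : ∀ i, T.x i ∈ L := fun i => by
        rw [hL]; exact IntermediateField.subset_adjoin _ _ (Or.inl ⟨i, rfl⟩)
      have hbL : T.b j ∈ L := by
        rw [hL]; exact IntermediateField.subset_adjoin _ _ (Or.inr ⟨j, rfl⟩)
      rw [hTg, ← hL]
      exact L.smul_mem (L.mul_mem hbL (prod_mem fun i _ => zpow_mem (hxL i) _))
  · have h4 : (fun i => KaehlerDifferential.D k E (∏ j, gE j ^ α' i j)) =
        fun i => KaehlerDifferential.D k E ⟨T.x i, hxE i⟩ := by
      funext i
      congr 1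
      apply Subtype.ext
      change E.val (∏ j, gE j ^ α' i j) = T.x i
      rw [hTx, map_prod]
      refine Finset.prod_congr rfl fun j _ => ?_
      rw [map_zpow₀, IntermediateField.coe_val, hgE']
    rw [h4] at hind
    exact hind
  · rw [Finset.prod_congr rfl fun j _ => mul_zpow (T.b j) (mx T.x (T.a j)) (α' i j),
      Finset.prod_mul_distrib, hbprod, one_mul, hmxT]


end Main

end Pool.Agent.ALLO83
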