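import Pool.Agent.Lib.ALLO_h83.AInf
import Pool.Agent.Lib.ALLO_h83.JacTD

/-!
# Logarithmic derivations, fixed elements and denominators (blocks 1, 2 of the all-defect text)
-/

set_option autoImplicit false

open Submodule Module

namespace Pool.Agent.ALLO83

open Pool.Agent.TAO
open Pool.Agent.ALLO (locv)

universe u w

section Dual

variable {k L : Type u} [Field k] [Field L] [Algebra k L] {r D : ℕ}

/-- Every derivation is a combination of the dual ones. -/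
theorem der_eq_dual {d : Fin r ⊕ Fin D → Derivation k L L} {w : Fin r ⊕ Fin D → L}
    (hspan : ∀ (δ : Derivation k L L) (z : L), δ z = ∑ e, δ (w e) * d e z) {x : Fin r → L}
    {y : Fin D → L} (hdet : (Jm d x y).det ≠ 0) (δ : Derivation k L L) (z : L) :
    δ z = ∑ s, Sum.elim (fun q => (x q)⁻¹ * δ (x q)) (fun i => δ (y i)) s * dual d x y s z := by
  have h1 : ∀ s, Sum.elim (fun q => (x q)⁻¹ * δ (x q)) (fun i => δ (y i)) s =
      ∑ e, Jm d x y s e * δ (w e) := by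
    rintro (q | i)
    · change (x q)⁻¹ * δ (x q) = ∑ e, ((x q)⁻¹ * d e (x q)) * δ (w e)
      rw [hspan δ (x q), Finset.mul_sum]
      exact Finset.sum_congr rfl fun e _ => by ring
    · change δ (y i) = ∑ e, d e (y i) * δ (w e)
      rw [hspan δ (y i)]
      exact Finset.sum_congr rfl fun e _ => by ring
  have h2 := Matrix.nonsing_inv_mul (Jm d x y) (isUnit_iff_ne_zero.2 hdet)
  simp only [h1, dual_apply]
  have h3 : ∀ s, (∑ e, Jm d x y s e * δ (w e)) * (∑ e', (Jm d x y)⁻¹ e' s * d e' z) =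
      ∑ e', ∑ e, ((Jm d x y)⁻¹ e' s * Jm d x y s e) * (δ (w e) * d e' z) := by
    intro s
    rw [Finset.sum_mul_sum, Finset.sum_comm]
    exact Finset.sum_congr rfl fun e' _ => Finset.sum_congr rfl fun e _ => by ring
  simp only [h3]
  rw [Finset.sum_comm]
  have h4 : ∀ e', ∑ s, ∑ e, ((Jm d x y)⁻¹ e' s * Jm d x y s e) * (δ (w e) * d e' z) =
      δ (w e') * d e' z := by
    intro e'
    rw [Finset.sum_comm]
    have h5 : ∀ e, ∑ s, ((Jm d x y)⁻¹ e' s * Jm d x y s e) * (δ (w e) * d e' z) =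
        (1 : Matrix (Fin r ⊕ Fin D) (Fin r ⊕ Fin D) L) e' e * (δ (w e) * d e' z) := by
      intro e
      rw [← Finset.sum_mul, ← h2, Matrix.mul_apply]
    simp only [h5]
    rw [Finset.sum_eq_single e']
    · rw [Matrix.one_apply_eq, one_mul]
    · intro e _ he
      rw [Matrix.one_apply_ne (Ne.symm he), zero_mul]
    · intro h; exact absurd (Finset.mem_univ _) h
  rw [Finset.sum_congr rfl fun e' _ => h4 e']
  exact hspan δ z

/-- The determinant times a logarithmic derivation preserves a stable subring. -/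
theorem det_mul_logD_mem {d : Fin r ⊕ Fin D → Derivation k L L} {w : Fin r ⊕ Fin D → L}
    (hspan : ∀ (δ : Derivation k L L) (z : L), δ z = ∑ e, δ (w e) * d e z) {x : Fin r → L}
    {y : Fin D → L} (hdet : (Jm d x y).det ≠ 0) (B : Subalgebra k L)
    (hB : ∀ e, ∀ z ∈ B, d e z ∈ B) (hx : ∀ q, x q ∈ B) (hxi : ∀ q, (x q)⁻¹ ∈ B)
    (hy : ∀ i, y i ∈ B) (δ : Derivation k L L)
    (hδx : ∀ q, ∃ c : k, (x q)⁻¹ * δ (x q) = algebraMap k L c)
    (hδy : ∀ i, ∃ c : k, δ (y i) = algebraMap k L c) {z : L} (hz : z ∈ B) :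
    (Jm d x y).det * δ z ∈ B := by
  rw [der_eq_dual hspan hdet δ z, Finset.mul_sum]
  refine B.sum_mem fun s _ => ?_
  have h1 := det_mul_dual_mem hdet B hB hx hxi hy s hz
  have h2 : ∃ c : k, Sum.elim (fun q => (x q)⁻¹ * δ (x q)) (fun i => δ (y i)) s =
      algebraMap k L c := by
    rcases s with q | i
    · exact hδx q
    · exact hδy i
  obtain ⟨c, hc⟩ := h2
  rw [hc]
  have h3 : (Jm d x y).det * (algebraMap k L c * dual d x y s z) =
      algebraMap k L c * ((Jm d x y).det * dual d x y s z) := by ring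
  rw [h3]
  exact B.mul_mem (B.algebraMap_mem c) h1

end Dual

section Fixed

variable {k Ω : Type u} [Field k] [Field Ω] [Algebra k Ω] {𝕂 : Type w} [Field 𝕂] [LinearOrder 𝕂] [IsStrictOrderedRing 𝕂] {v : OVal 𝕂 Ω} {r D : ℕ} {ι : Type}
  [Fintype ι]

theorem mem_pow_of_adjoin {V : Submodule k Ω} (h1 : (1 : Ω) ∈ V) {z : Ω}
    (hz : z ∈ Algebra.adjoin k (V : Set Ω)) : ∃ c, z ∈ V ^ c := by
  induction hz using Algebra.adjoin_induction with
  | mem x hx => exact ⟨1, by rw [pow_one]; exact hx⟩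
  | algebraMap c =>
    refine ⟨0, ?_⟩
    rw [pow_zero, Algebra.algebraMap_eq_smul_one]
    exact smul_mem _ _ (Submodule.one_le.mp le_rfl)
  | add x y _ _ hx hy =>
    obtain ⟨m, hm⟩ := hx
    obtain ⟨m', hm'⟩ := hy
    exact ⟨max m m', add_mem (pow_le_pow_of_one h1 (le_max_left _ _) hm)
      (pow_le_pow_of_one h1 (le_max_right _ _) hm')⟩
  | mul x y _ _ hx hy =>
    obtain ⟨m, hm⟩ := hx
    obtain ⟨m', hm'⟩ := hy
    exact ⟨m + m', by rw [pow_add]; exact mul_mem_mul hm hm'⟩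

/-- Finitely many elements of the field are quotients of elements of one power of `V`. -/
theorem exists_pow_quot {V : Submodule k Ω} (h1 : (1 : Ω) ∈ V) (Z : Finset Ω)
    (hZ : ∀ z ∈ Z, ∃ a ∈ Algebra.adjoin k (V : Set Ω), ∃ b ∈ Algebra.adjoin k (V : Set Ω),
      b ≠ 0 ∧ z = a / b) :
    ∃ c₁ : ℕ, ∀ z ∈ Z, ∃ a ∈ V ^ c₁, ∃ b ∈ V ^ c₁, b ≠ 0 ∧ z = a / b := by
  classical
  induction Z using Finset.induction_on with
  | empty => exact ⟨0, fun z hz => absurd hz (Finset.notMem_empty z)⟩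
  | insert z Z hz ih =>
    obtain ⟨c₁, hc₁⟩ := ih fun y hy => hZ y (Finset.mem_insert_of_mem hy)
    obtain ⟨a, ha, b, hb, hb0, hab⟩ := hZ z (Finset.mem_insert_self _ _)
    obtain ⟨c₂, hc₂⟩ := mem_pow_of_adjoin h1 ha
    obtain ⟨c₃, hc₃⟩ := mem_pow_of_adjoin h1 hb
    refine ⟨c₁ + c₂ + c₃, fun y hy => ?_⟩
    rcases Finset.mem_insert.1 hy with rfl | hy
    · exact ⟨a, pow_le_pow_of_one h1 (by omega) hc₂, b, pow_le_pow_of_one h1 (by omega) hc₃, hb0,
        hab⟩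
    · obtain ⟨a', ha', b', hb', hb0', hab'⟩ := hc₁ y hy
      exact ⟨a', pow_le_pow_of_one h1 (by omega) ha', b', pow_le_pow_of_one h1 (by omega) hb',
        hb0', hab'⟩

/-- A quotient of elements of a power `V ^ c`, `c ≤ m`, is a monomial. -/
theorem mon_of_quot (htriv : ∀ c : k, c ≠ 0 → v (algebraMap k Ω c) = 0) (T : TD k v r ι)
    {V : Submodule k Ω} (h1 : (1 : Ω) ∈ V) {m : ℕ} {f₀ : Ω} (hf₀0 : f₀ ≠ 0)
    (hspan : span k (Set.range fun j => T.b j * mx T.x (T.a j)) = span k {f₀⁻¹} * V ^ m)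
    {c : ℕ} (hc : c ≤ m) {z a b : Ω} (ha : a ∈ V ^ c) (hb : b ∈ V ^ c) (hb0 : b ≠ 0)
    (hab : z = a / b) (hz : z ≠ 0) : IsMon T z := by
  have ha0 : a ≠ 0 := fun h => hz (by rw [hab, h, zero_div])
  rw [hab]
  exact (mon_of_mem_pow htriv T h1 hf₀0 hspan (pow_le_pow_of_one h1 hc ha) ha0).div
    (mon_of_mem_pow htriv T h1 hf₀0 hspan (pow_le_pow_of_one h1 hc hb) hb0)

/-- A common denominator. -/
theorem exists_common_den {E : IntermediateField k Ω} (Z : Finset Ω)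
    (hZE : IntermediateField.adjoin k (Z : Set Ω) = E) (V : Submodule k Ω)
    [FiniteDimensional k V] (hVE : ∀ y ∈ V, y ∈ E) :
    ∃ b₀ ∈ Algebra.adjoin k (Z : Set Ω), b₀ ≠ 0 ∧
      ∀ y ∈ V, b₀ * y ∈ Algebra.adjoin k (Z : Set Ω) := by
  classical
  obtain ⟨A, hA⟩ : ∃ A, A = Algebra.adjoin k (Z : Set Ω) := ⟨_, rfl⟩
  rw [← hA]
  have hq : ∀ y ∈ E, ∃ a ∈ A, ∃ b ∈ A, b ≠ 0 ∧ y = a / b := by
    intro y hy
    rw [← hZE, IntermediateField.mem_adjoin_iff_div] at hy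
    obtain ⟨a, ha, b, hb, hab⟩ := hy
    by_cases hb0 : b = 0
    · exact ⟨0, A.zero_mem, 1, A.one_mem, one_ne_zero, by rw [hab, hb0, div_zero, zero_div]⟩
    · exact ⟨a, by rw [hA]; exact ha, b, by rw [hA]; exact hb, hb0, hab⟩
  have hS : ∀ S : Finset Ω, (∀ y ∈ S, y ∈ E) → ∃ b₀ ∈ A, b₀ ≠ 0 ∧ ∀ y ∈ S, b₀ * y ∈ A := by
    intro S
    induction S using Finset.induction_on with
    | empty => exact fun _ => ⟨1, A.one_mem, one_ne_zero, fun y hy => absurd hy (by simp)⟩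
    | insert z S hz ih =>
      intro hSE
      obtain ⟨b₀, hb₀, hb₀0, hb₀S⟩ := ih fun y hy => hSE y (Finset.mem_insert_of_mem hy)
      obtain ⟨a, ha, b, hb, hb0, hab⟩ := hq z (hSE z (Finset.mem_insert_self _ _))
      refine ⟨b₀ * b, A.mul_mem hb₀ hb, mul_ne_zero hb₀0 hb0, fun y hy => ?_⟩
      rcases Finset.mem_insert.1 hy with rfl | hy
      · have h2 : b₀ * b * y = b₀ * a := by
          rw [hab, mul_assoc, mul_div_cancel₀ _ hb0]
        rw [h2]
        exact A.mul_mem hb₀ ha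
      · have h2 : b₀ * b * y = b * (b₀ * y) := by ring
        rw [h2]
        exact A.mul_mem hb (hb₀S y hy)
  obtain ⟨S, hSV⟩ : ∃ S : Finset Ω, span k (S : Set Ω) = V := by
    have h1 : V.FG := (Submodule.fg_iff_finiteDimensional V).2 inferInstance
    exact h1
  obtain ⟨b₀, hb₀, hb₀0, hb₀S⟩ := hS S fun y hy => hVE y (by
    rw [← hSV]; exact subset_span hy)
  refine ⟨b₀, hb₀, hb₀0, fun y hy => ?_⟩
  rw [← hSV] at hy
  induction hy using Submodule.span_induction with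
  | mem y hy => exact hb₀S y hy
  | zero => rw [mul_zero]; exact A.zero_mem
  | add x y _ _ hx hy => rw [mul_add]; exact A.add_mem hx hy
  | smul c x _ hx => rw [mul_smul_comm]; exact A.smul_mem hx c

theorem exists_pow_mul_mem {Z : Finset Ω} {V : Submodule k Ω} {b₀ : Ω}
    (hb₀ : b₀ ∈ Algebra.adjoin k (Z : Set Ω))
    (hV : ∀ y ∈ V, b₀ * y ∈ Algebra.adjoin k (Z : Set Ω)) {a : Ω}
    (ha : a ∈ Algebra.adjoin k (V : Set Ω)) :
    ∃ N : ℕ, ∀ N' ≥ N, b₀ ^ N' * a ∈ Algebra.adjoin k (Z : Set Ω) := by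
  obtain ⟨A, hA⟩ : ∃ A, A = Algebra.adjoin k (Z : Set Ω) := ⟨_, rfl⟩
  rw [← hA] at hb₀ hV ⊢
  have hup : ∀ {N : ℕ} {a : Ω}, b₀ ^ N * a ∈ A → ∀ N' ≥ N, b₀ ^ N' * a ∈ A := by
    intro N a h N' hN'
    obtain ⟨e, rfl⟩ := Nat.exists_eq_add_of_le hN'
    have h2 : b₀ ^ (N + e) * a = b₀ ^ e * (b₀ ^ N * a) := by rw [pow_add]; ring
    rw [h2]
    exact A.mul_mem (A.pow_mem hb₀ e) h
  induction ha using Algebra.adjoin_induction with
  | mem y hy => exact ⟨1, hup (by rw [pow_one]; exact hV y hy)⟩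
  | algebraMap c => exact ⟨0, hup (by rw [pow_zero, one_mul]; exact A.algebraMap_mem c)⟩
  | add x y _ _ hx hy =>
    obtain ⟨N, hN⟩ := hx
    obtain ⟨N', hN'⟩ := hy
    refine ⟨N + N', fun e he => ?_⟩
    rw [mul_add]
    exact A.add_mem (hN e (by omega)) (hN' e (by omega))
  | mul x y _ _ hx hy =>
    obtain ⟨N, hN⟩ := hx
    obtain ⟨N', hN'⟩ := hy
    refine ⟨N + N', hup ?_⟩
    have h2 : b₀ ^ (N + N') * (x * y) = (b₀ ^ N * x) * (b₀ ^ N' * y) := by rw [pow_add]; ring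
    rw [h2]
    exact A.mul_mem (hN N le_rfl) (hN' N' le_rfl)

end Fixed

end Pool.Agent.ALLO83
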