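import Pool.Agent.Lib.ALLO_h83.LogSup

/-!
# The logarithmic Jacobian of the projections (2.1 of the all-defect text)
-/

set_option autoImplicit false

open Submodule Module

namespace Pool.Agent.ALLO83

open Pool.Agent.TAO

universe u

section Jac

variable {k L : Type u} [Field k] [Field L] [Algebra k L]

theorem dlog_prod {ι : Type} (d : Derivation k L L) {g : ι → L} (hg : ∀ j, g j ≠ 0) (α : ι → ℤ)
    (s : Finset ι) : d (∏ j ∈ s, g j ^ α j) =
      (∏ j ∈ s, g j ^ α j) * ∑ j ∈ s, (α j : L) * ((g j)⁻¹ * d (g j)) := by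
  classical
  induction s using Finset.induction_on with
  | empty => simp
  | insert j s hj ih =>
    rw [Finset.prod_insert hj, Finset.sum_insert hj, Derivation.leibniz, ih,
      Derivation.leibniz_zpow, zpow_sub_one₀ (hg j)]
    simp only [smul_eq_mul, zsmul_eq_mul]
    ring

theorem mx_sum' {r : ℕ} {x : Fin r → L} (hx : ∀ i, x i ≠ 0) {κ : Type*} (S : Finset κ)
    (g : κ → Fin r → ℤ) : mx x (∑ i ∈ S, g i) = ∏ i ∈ S, mx x (g i) := by
  classical
  induction S using Finset.induction_on with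
  | empty => simp [mx_zero]
  | insert i S hi ih => rw [Finset.sum_insert hi, Finset.prod_insert hi, mx_add hx, ih]

variable {r D : ℕ} {ι : Type} [Fintype ι] [DecidableEq ι]

/-- The logarithmic Jacobian of `(x, y)` for the derivations `d`. -/
def Jm (d : Fin r ⊕ Fin D → Derivation k L L) (x : Fin r → L) (y : Fin D → L) :
    Matrix (Fin r ⊕ Fin D) (Fin r ⊕ Fin D) L :=
  Matrix.of (Sum.elim (fun q b => (x q)⁻¹ * d b (x q)) (fun i b => d b (y i)))

/-- The Jacobian of `n` of the `f`. -/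
def qq (d : Fin r ⊕ Fin D → Derivation k L L) (f : ι → L) (j : Fin r → ι) (l : Fin D → ι) : L :=
  (Matrix.of (Sum.elim (fun q b => d b (f (j q))) (fun i b => d b (f (l i))))).det

/-- The coefficient at `l` of `Q`. -/
def Qc (d : Fin r ⊕ Fin D → Derivation k L L) (f : ι → L) (α : Fin r → ι → ℤ) (S : Finset ι)
    (l : Fin D → ι) : L :=
  ∑ j : Fin r → ι with (∀ q, j q ∈ S) ∧ Function.Injective j,
    (∏ q, (α q (j q) : L)) * (∏ s ∈ S \ Finset.univ.image j, f s) * qq d f j l

/-- `Q_t(c)`. -/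
noncomputable def Qv (d : Fin r ⊕ Fin D → Derivation k L L) (f : ι → L) (α : Fin r → ι → ℤ)
    (S : Finset ι) (a : ι → Fin r → ℤ) (c : Fin D → ι → k) (t : Fin r → L) : L :=
  ∑ l : Fin D → ι, (∏ i, algebraMap k L (c i (l i))) * Qc d f α S l * mx t (-∑ i, a (l i))

omit [Fintype ι] [DecidableEq ι] in
theorem qq_eq_zero (d : Fin r ⊕ Fin D → Derivation k L L) (f : ι → L) (j : Fin r → ι)
    (l : Fin D → ι) (h : ¬ Function.Injective j) : qq d f j l = 0 := by
  unfold Function.Injective at h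
  push Not at h
  obtain ⟨a, b, hab, hne⟩ := h
  refine Matrix.det_zero_of_row_eq (i := Sum.inl a) (j := Sum.inl b) (by simpa using hne) ?_
  funext q
  simp [hab]

omit [DecidableEq ι] in
theorem det_rows (d : Fin r ⊕ Fin D → Derivation k L L) (f : ι → L) (A : Fin r → ι → L)
    (C : Fin D → ι → L) :
    (Matrix.of (Sum.elim (fun q b => ∑ s, A q s * d b (f s))
      (fun i b => ∑ s, C i s * d b (f s))) : Matrix (Fin r ⊕ Fin D) (Fin r ⊕ Fin D) L).det =
      ∑ j : Fin r → ι, ∑ l : Fin D → ι, (∏ q, A q (j q)) * (∏ i, C i (l i)) * qq d f j l := by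
  have h1 : (Matrix.of (Sum.elim (fun q b => ∑ s, A q s * d b (f s))
      (fun i b => ∑ s, C i s * d b (f s))) : Matrix (Fin r ⊕ Fin D) (Fin r ⊕ Fin D) L) =
      Matrix.of fun i => ∑ s, (Sum.elim A C i s) • (fun b => d b (f s)) := by
    ext i b
    rw [Matrix.of_apply, Matrix.of_apply, Finset.sum_apply]
    rcases i with q | i <;> rfl
  rw [h1]
  have h2 := (Matrix.detRowAlternating (n := Fin r ⊕ Fin D) (R := L)).toMultilinearMap.map_sum
    (fun i s => (Sum.elim A C i s) • (fun b => d b (f s)))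
  have h3 : (Matrix.of fun i => ∑ s, (Sum.elim A C i s) • (fun b => d b (f s))).det =
      ∑ ρ : Fin r ⊕ Fin D → ι, (∏ i, Sum.elim A C i (ρ i)) *
        (Matrix.of fun i b => d b (f (ρ i))).det := by
    refine h2.trans (Finset.sum_congr rfl fun ρ _ => ?_)
    have h4 := (Matrix.detRowAlternating (n := Fin r ⊕ Fin D) (R := L)).toMultilinearMap.map_smul_univ
      (fun i => Sum.elim A C i (ρ i)) (fun i b => d b (f (ρ i)))
    exact h4
  rw [h3, ← (Equiv.sumArrowEquivProdArrow (Fin r) (Fin D) ι).symm.sum_comp, Fintype.sum_prod_type]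
  refine Finset.sum_congr rfl fun j _ => Finset.sum_congr rfl fun l _ => ?_
  rw [Fintype.prod_sum_type]
  have h5 : (Matrix.of fun i b => d b (f ((Equiv.sumArrowEquivProdArrow (Fin r) (Fin D) ι).symm
      (j, l) i))).det = qq d f j l := by
    unfold qq
    congr 1
    ext i b
    rcases i with q | i <;> rfl
  rw [h5]
  rfl

/-- The logarithmic Jacobian of the projection `y = ∑ c (b - 1)` is `(∏_S f)⁻¹ Q_x(c)`. -/
theorem det_Jm (d : Fin r ⊕ Fin D → Derivation k L L) {x : Fin r → L} (hx0 : ∀ i, x i ≠ 0)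
    {f b : ι → L} {a : ι → Fin r → ℤ} (hb : ∀ j, b j ≠ 0) (hf : ∀ j, f j = b j * mx x (a j))
    {α : Fin r → ι → ℤ} (hx : ∀ i, x i = ∏ j, f j ^ α i j) {S : Finset ι}
    (hS : ∀ i, ∀ j, j ∉ S → (α i j : L) = 0) (c : Fin D → ι → k) {y : Fin D → L}
    (hy : ∀ i, y i = ∑ l, c i l • (b l - 1)) :
    (Jm d x y).det = (∏ s ∈ S, f s)⁻¹ * Qv d f α S a c x := by
  have hf0 : ∀ j, f j ≠ 0 := fun j => by rw [hf]; exact mul_ne_zero (hb j) (mx_ne hx0 _)
  -- the rows of the `x`
  have hr1 : ∀ q e, (x q)⁻¹ * d e (x q) = ∑ j, ((α q j : L) * (f j)⁻¹) * d e (f j) := by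
    intro q e
    have h1 : d e (x q) = x q * ∑ j, (α q j : L) * ((f j)⁻¹ * d e (f j)) := by
      conv_lhs => rw [hx, dlog_prod _ hf0, ← hx]
    rw [h1, inv_mul_cancel_left₀ (hx0 q)]
    exact Finset.sum_congr rfl fun j _ => by ring
  -- the differentials of the `b`
  have hr2 : ∀ l e, d e (b l) = mx x (-a l) * d e (f l) -
      b l * ∑ q, (a l q : L) * ((x q)⁻¹ * d e (x q)) := by
    intro l e
    have h1 : b l = f l * mx x (-a l) := by
      have h2 : mx x (a l) * mx x (-a l) = 1 := by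
        rw [← mx_add hx0, add_neg_cancel, mx_zero]
      rw [hf, mul_assoc, h2, mul_one]
    have h3 : d e (mx x (-a l)) = mx x (-a l) *
        -∑ q, (a l q : L) * ((x q)⁻¹ * d e (x q)) := by
      unfold mx
      rw [dlog_prod _ hx0, ← Finset.sum_neg_distrib]
      congr 1
      refine Finset.sum_congr rfl fun q _ => ?_
      rw [Pi.neg_apply]
      push_cast
      ring
    conv_lhs => rw [h1, Derivation.leibniz, h3]
    conv_rhs => rw [h1]
    simp only [smul_eq_mul]
    ring
  obtain ⟨B, hB⟩ : ∃ B : Matrix (Fin D) (Fin r) L, ∀ i q, B i q =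
    -∑ l, algebraMap k L (c i l) * b l * (a l q : L) := ⟨Matrix.of fun _ _ => _, fun _ _ => rfl⟩
  obtain ⟨J', hJ'⟩ : ∃ J' : Matrix (Fin r ⊕ Fin D) (Fin r ⊕ Fin D) L, J' =
    Matrix.of (Sum.elim (fun q e => ∑ s, ((α q s : L) * (f s)⁻¹) * d e (f s))
      (fun i e => ∑ s, (algebraMap k L (c i s) * mx x (-a s)) * d e (f s))) := ⟨_, rfl⟩
  have hmul : Jm d x y = Matrix.fromBlocks 1 0 B 1 * J' := by
    ext i e
    rw [Matrix.mul_apply, Fintype.sum_sum_type]
    rcases i with q | i
    · simp only [Jm, Matrix.of_apply, Sum.elim_inl, Matrix.fromBlocks_apply₁₁,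
        Matrix.fromBlocks_apply₁₂, Matrix.zero_apply, zero_mul, Finset.sum_const_zero, add_zero]
      rw [Finset.sum_eq_single q]
      · rw [Matrix.one_apply_eq, one_mul, hJ', hr1]; rfl
      · intro q' _ hq'
        rw [Matrix.one_apply_ne (Ne.symm hq'), zero_mul]
      · intro h; exact absurd (Finset.mem_univ _) h
    · simp only [Jm, Matrix.of_apply, Sum.elim_inr, Matrix.fromBlocks_apply₂₁,
        Matrix.fromBlocks_apply₂₂]
      have h1 : ∑ i', (1 : Matrix (Fin D) (Fin D) L) i i' * J' (Sum.inr i') e =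
          ∑ s, (algebraMap k L (c i s) * mx x (-a s)) * d e (f s) := by
        rw [Finset.sum_eq_single i]
        · rw [Matrix.one_apply_eq, one_mul, hJ']; rfl
        · intro q' _ hq'
          rw [Matrix.one_apply_ne (Ne.symm hq'), zero_mul]
        · intro h; exact absurd (Finset.mem_univ _) h
      have h2 : ∀ q, J' (Sum.inl q) e = (x q)⁻¹ * d e (x q) := fun q => by
        rw [hr1, hJ']; rfl
      rw [h1, hy, map_sum]
      simp only [h2, hB]
      have h3 : ∀ l, d e (c i l • (b l - 1)) = algebraMap k L (c i l) * (mx x (-a l) * d e (f l)) -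
          ∑ q, algebraMap k L (c i l) * b l * (a l q : L) * ((x q)⁻¹ * d e (x q)) := by
        intro l
        rw [Derivation.map_smul, map_sub, Derivation.map_one_eq_zero, sub_zero, hr2,
          Algebra.smul_def, mul_sub]
        congr 1
        rw [Finset.mul_sum, Finset.mul_sum]
        exact Finset.sum_congr rfl fun q _ => by ring
      rw [Finset.sum_congr rfl fun l _ => h3 l, Finset.sum_sub_distrib, Finset.sum_comm]
      have h4 : ∀ q, -(∑ l, algebraMap k L (c i l) * b l * (a l q : L)) * ((x q)⁻¹ * d e (x q)) =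
          -∑ l, algebraMap k L (c i l) * b l * (a l q : L) * ((x q)⁻¹ * d e (x q)) := by
        intro q
        rw [neg_mul, Finset.sum_mul]
      rw [Finset.sum_congr rfl fun q _ => h4 q, Finset.sum_neg_distrib]
      have h5 : ∑ s, (algebraMap k L (c i s) * mx x (-a s)) * d e (f s) =
          ∑ s, algebraMap k L (c i s) * (mx x (-a s) * d e (f s)) :=
        Finset.sum_congr rfl fun s _ => by ring
      rw [h5]
      ring
  rw [hmul, Matrix.det_mul, Matrix.det_fromBlocks_zero₁₂, Matrix.det_one, Matrix.det_one, one_mul,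
    one_mul, hJ', det_rows]
  -- collect the terms
  have hin : ∀ l : Fin D → ι, ∑ j : Fin r → ι, (∏ q, (α q (j q) : L) * (f (j q))⁻¹) * qq d f j l =
      (∏ s ∈ S, f s)⁻¹ * Qc d f α S l := by
    intro l
    unfold Qc
    rw [Finset.mul_sum, Finset.sum_filter]
    refine Finset.sum_congr rfl fun j _ => ?_
    split_ifs with h
    · obtain ⟨hjS, hjinj⟩ := h
      have h1 : ∏ s ∈ S, f s = (∏ s ∈ S \ Finset.univ.image j, f s) * ∏ q, f (j q) := by
        have h2 : ∏ q, f (j q) = ∏ s ∈ Finset.univ.image j, f s := by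
          rw [Finset.prod_image fun a _ b _ h => hjinj h]
        rw [h2, Finset.prod_sdiff]
        intro s hs
        obtain ⟨q, -, rfl⟩ := Finset.mem_image.1 hs
        exact hjS q
      have h3 : ∏ s ∈ S \ Finset.univ.image j, f s ≠ 0 :=
        Finset.prod_ne_zero_iff.2 fun s _ => hf0 s
      have h4 : ∏ q, f (j q) ≠ 0 := Finset.prod_ne_zero_iff.2 fun s _ => hf0 _
      rw [Finset.prod_mul_distrib, Finset.prod_inv_distrib, h1]
      field_simp
    · by_cases hjS : ∀ q, j q ∈ S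
      · have hjinj : ¬ Function.Injective j := fun h' => h ⟨hjS, h'⟩
        rw [qq_eq_zero d f j l hjinj, mul_zero]
      · push Not at hjS
        obtain ⟨q, hq⟩ := hjS
        rw [Finset.prod_eq_zero (Finset.mem_univ q) (by rw [hS q _ hq, zero_mul]), zero_mul]
  rw [Finset.sum_comm]
  unfold Qv
  rw [Finset.mul_sum]
  refine Finset.sum_congr rfl fun l _ => ?_
  have h6 : ∏ i, (algebraMap k L (c i (l i)) * mx x (-a (l i))) =
      (∏ i, algebraMap k L (c i (l i))) * mx x (-∑ i, a (l i)) := by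
    rw [Finset.prod_mul_distrib]
    congr 1
    rw [← Finset.sum_neg_distrib, mx_sum' hx0]
  simp only [h6]
  have h7 : ∀ j : Fin r → ι, (∏ q, (α q (j q) : L) * (f (j q))⁻¹) *
      ((∏ i, algebraMap k L (c i (l i))) * mx x (-∑ i, a (l i))) * qq d f j l =
      ((∏ i, algebraMap k L (c i (l i))) * mx x (-∑ i, a (l i))) *
        ((∏ q, (α q (j q) : L) * (f (j q))⁻¹) * qq d f j l) := fun j => by ring
  rw [Finset.sum_congr rfl fun j _ => h7 j, ← Finset.mul_sum, hin]
  ring

/-- `Q_(x/τ)(c) = Q_x(c τ^a)`. -/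
theorem Qv_div (d : Fin r ⊕ Fin D → Derivation k L L) (f : ι → L) (α : Fin r → ι → ℤ)
    (S : Finset ι) (a : ι → Fin r → ℤ) (c : Fin D → ι → k) {x : Fin r → L} (τ : Fin r → k)
    (hτ : ∀ q, τ q ≠ 0) :
    Qv d f α S a c (fun q => x q / algebraMap k L (τ q)) =
      Qv d f α S a (fun i l => c i l * mx τ (a l)) x := by
  have hτL : ∀ q, algebraMap k L (τ q) ≠ 0 := fun q => (map_ne_zero _).2 (hτ q)
  unfold Qv
  refine Finset.sum_congr rfl fun l _ => ?_
  have h1 : mx (fun q => x q / algebraMap k L (τ q)) (-∑ i, a (l i)) =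
      mx x (-∑ i, a (l i)) * ∏ i, algebraMap k L (mx τ (a (l i))) := by
    rw [← map_prod, ← mx_sum' hτ]
    unfold mx
    rw [map_prod, ← Finset.prod_mul_distrib]
    refine Finset.prod_congr rfl fun q _ => ?_
    rw [map_zpow₀, div_zpow, div_eq_mul_inv, ← zpow_neg, Pi.neg_apply, neg_neg]
  rw [h1]
  simp only [map_mul, Finset.prod_mul_distrib]
  ring

theorem mx_neg_zpow {x : Fin r → L} (hx : ∀ i, x i ≠ 0) (l : Fin r → ℤ) :
    mx x (-l) = (mx x l)⁻¹ := by
  refine eq_inv_of_mul_eq_one_left ?_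
  rw [← mx_add hx, neg_add_cancel, mx_zero]

omit [Fintype ι] in
theorem prod_mem_pow {P : Submodule k L} {f : ι → L} (hf : ∀ j, f j ∈ P) (S : Finset ι) :
    ∏ s ∈ S, f s ∈ P ^ S.card := by
  induction S using Finset.induction_on with
  | empty => simp
  | insert s S hs ih =>
    rw [Finset.prod_insert hs, Finset.card_insert_of_notMem hs, pow_succ']
    exact mul_mem_mul (hf s) ih

theorem pow_le_pow_of_one {P : Submodule k L} (h1 : (1 : L) ∈ P) {m m' : ℕ} (h : m ≤ m') :
    P ^ m ≤ P ^ m' := by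
  induction h with
  | refl => exact le_rfl
  | @step m' _ ih =>
    refine ih.trans ?_
    rw [pow_succ]
    calc P ^ m' = P ^ m' * 1 := (mul_one _).symm
      _ ≤ P ^ m' * P := mul_le_mul' le_rfl (Submodule.one_le.2 h1)

/-- The coefficients of `Q` lie in a small power of `P`. -/
theorem Qc_mem (d : Fin r ⊕ Fin D → Derivation k L L) {f : ι → L} (α : Fin r → ι → ℤ)
    {S : Finset ι} (hScard : S.card ≤ 2 * r) {P : Submodule k L} (h1 : (1 : L) ∈ P)
    (hf : ∀ j, f j ∈ P) {g : L} {e : ℕ} (hg : ∀ j l, g * qq d f j l ∈ P ^ e) (l : Fin D → ι) :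
    g * Qc d f α S l ∈ P ^ (e + r) := by
  unfold Qc
  rw [Finset.mul_sum]
  refine sum_mem fun j hj => ?_
  obtain ⟨hjS, hjinj⟩ := (Finset.mem_filter.1 hj).2
  have h2 : (S \ Finset.univ.image j).card ≤ r := by
    rw [Finset.card_sdiff_of_subset, Finset.card_image_of_injective _ hjinj, Finset.card_univ,
      Fintype.card_fin]
    · omega
    · intro s hs
      obtain ⟨q, -, rfl⟩ := Finset.mem_image.1 hs
      exact hjS q
  have h3 := pow_le_pow_of_one h1 h2 (prod_mem_pow hf (S \ Finset.univ.image j))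
  have h4 : (∏ q, (α q (j q) : L)) = algebraMap k L (∏ q, (α q (j q) : k)) := by
    rw [map_prod]
    exact Finset.prod_congr rfl fun q _ => by rw [map_intCast]
  have h5 : g * ((∏ q, (α q (j q) : L)) * (∏ s ∈ S \ Finset.univ.image j, f s) * qq d f j l) =
      (∏ q, (α q (j q) : k)) • ((g * qq d f j l) * ∏ s ∈ S \ Finset.univ.image j, f s) := by
    rw [h4, Algebra.smul_def]
    ring
  rw [h5, pow_add]
  exact smul_mem _ _ (mul_mem_mul (hg j l) h3)

/-- Cramer: the derivations dual to `(dlog x, dy)`. -/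
noncomputable def dual (d : Fin r ⊕ Fin D → Derivation k L L) (x : Fin r → L) (y : Fin D → L)
    (s : Fin r ⊕ Fin D) : Derivation k L L := ∑ e, (Jm d x y)⁻¹ e s • d e

theorem dual_apply (d : Fin r ⊕ Fin D → Derivation k L L) (x : Fin r → L) (y : Fin D → L)
    (s : Fin r ⊕ Fin D) (z : L) : dual d x y s z = ∑ e, (Jm d x y)⁻¹ e s * d e z := by
  unfold dual
  rw [← Derivation.coeFnAddMonoidHom_apply, map_sum, Finset.sum_apply]
  rfl

theorem dual_x {d : Fin r ⊕ Fin D → Derivation k L L} {x : Fin r → L} (hx0 : ∀ i, x i ≠ 0)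
    {y : Fin D → L} (hdet : (Jm d x y).det ≠ 0) (s : Fin r ⊕ Fin D) (q : Fin r) :
    dual d x y s (x q) = if s = Sum.inl q then x q else 0 := by
  have h1 := congrFun (congrFun (Matrix.mul_nonsing_inv (Jm d x y)
    (isUnit_iff_ne_zero.2 hdet)) (Sum.inl q)) s
  rw [Matrix.mul_apply] at h1
  have h2 : ∀ e, d e (x q) = x q * Jm d x y (Sum.inl q) e := fun e => by
    change _ = x q * ((x q)⁻¹ * d e (x q))
    rw [mul_inv_cancel_left₀ (hx0 q)]
  rw [dual_apply, Finset.sum_congr rfl fun e _ => by rw [h2 e]]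
  have h3 : ∑ e, (Jm d x y)⁻¹ e s * (x q * Jm d x y (Sum.inl q) e) =
      x q * ∑ e, Jm d x y (Sum.inl q) e * (Jm d x y)⁻¹ e s := by
    rw [Finset.mul_sum]
    exact Finset.sum_congr rfl fun e _ => by ring
  rw [h3, h1, Matrix.one_apply]
  by_cases h : s = Sum.inl q
  · rw [if_pos h, if_pos h.symm, mul_one]
  · rw [if_neg h, if_neg (Ne.symm h), mul_zero]

theorem dual_y {d : Fin r ⊕ Fin D → Derivation k L L} {x : Fin r → L}
    {y : Fin D → L} (hdet : (Jm d x y).det ≠ 0) (s : Fin r ⊕ Fin D) (i : Fin D) :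
    dual d x y s (y i) = if s = Sum.inr i then 1 else 0 := by
  have h1 := congrFun (congrFun (Matrix.mul_nonsing_inv (Jm d x y)
    (isUnit_iff_ne_zero.2 hdet)) (Sum.inr i)) s
  rw [Matrix.mul_apply] at h1
  rw [dual_apply]
  have h3 : ∑ e, (Jm d x y)⁻¹ e s * d e (y i) =
      ∑ e, Jm d x y (Sum.inr i) e * (Jm d x y)⁻¹ e s :=
    Finset.sum_congr rfl fun e _ => mul_comm _ _
  rw [h3, h1, Matrix.one_apply]
  by_cases h : s = Sum.inr i
  · rw [if_pos h, if_pos h.symm]
  · rw [if_neg h, if_neg (Ne.symm h)]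

/-- The determinant of the Jacobian times a dual derivation preserves a subring stable under the
`d` which contains the entries of the Jacobian. -/
theorem det_mul_dual_mem {d : Fin r ⊕ Fin D → Derivation k L L} {x : Fin r → L}
    {y : Fin D → L} (hdet : (Jm d x y).det ≠ 0) (B : Subalgebra k L)
    (hB : ∀ e, ∀ z ∈ B, d e z ∈ B) (hx : ∀ q, x q ∈ B) (hxi : ∀ q, (x q)⁻¹ ∈ B)
    (hy : ∀ i, y i ∈ B) (s : Fin r ⊕ Fin D) {z : L} (hz : z ∈ B) :
    (Jm d x y).det * dual d x y s z ∈ B := by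
  have hJ : ∀ i e, Jm d x y i e ∈ B := by
    intro i e
    rcases i with q | i
    · exact B.mul_mem (hxi q) (hB e _ (hx q))
    · exact hB e _ (hy i)
  obtain ⟨J', hJ'⟩ : ∃ J' : Matrix (Fin r ⊕ Fin D) (Fin r ⊕ Fin D) B,
    J'.map (algebraMap B L) = Jm d x y := ⟨Matrix.of fun i e => ⟨_, hJ i e⟩, rfl⟩
  have hadj : ∀ i e, (Jm d x y).adjugate i e ∈ B := by
    intro i e
    rw [← hJ', ← RingHom.mapMatrix_apply, ← RingHom.map_adjugate]
    exact (J'.adjugate i e).2
  have h1 : ∀ e, (Jm d x y).det * (Jm d x y)⁻¹ e s = (Jm d x y).adjugate e s := by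
    intro e
    rw [Matrix.inv_def, Matrix.smul_apply, smul_eq_mul, ← mul_assoc, Ring.inverse_eq_inv',
      mul_inv_cancel₀ hdet, one_mul]
  rw [dual_apply, Finset.mul_sum]
  refine B.sum_mem fun e _ => ?_
  rw [← mul_assoc, h1]
  exact B.mul_mem (hadj _ _) (hB e z hz)

end Jac

end Pool.Agent.ALLO83
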